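import Pool.Agent.N508.HF.Stm

/-!
# Project HF (helper508), CH (helper40): existence of the series by Zorn's lemma
-/

set_option autoImplicit false

namespace Pool.Agent.N508.HF

namespace CH

section
variable {G : Type} [Group G]

/-- a member of a series -/
def Good (M N K : Subgroup G) : Prop :=
  K.Normal ∧ K ≤ N ∧ ∃ (n : ℕ) (J : ℕ → Subgroup G), Ch Ab M n J ∧ J n = K

theorem good_bot (M N : Subgroup G) : Good M N ⊥ :=
  ⟨inferInstance, bot_le, 0, fun _ => ⊥, ⟨rfl, fun _ => inferInstance, fun _ => le_rfl,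
    fun i hi => absurd hi (Nat.not_lt_zero i)⟩, rfl⟩

theorem extend {M N K K' : Subgroup G} (h : Good M N K) (hn : K'.Normal) (hle : K ≤ K')
    (hN : K' ≤ N) (hf : Ab K K' ∨ M ⊓ K' ≤ K) : Good M N K' := by
  obtain ⟨hK, hKN, n, J, hJ, hJn⟩ := h
  refine ⟨hn, hN, n + 1, fun i => if i ≤ n then J i else K', ⟨?_, ?_, ?_, ?_⟩, ?_⟩
  · simp only [Nat.zero_le, if_true]
    exact hJ.bot
  · intro i
    by_cases hi : i ≤ n
    · simp only [hi, if_true]
      exact hJ.nor i
    · simp only [hi, if_false]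
      exact hn
  · intro i
    by_cases h1 : i + 1 ≤ n
    · simp only [h1, if_true, (by omega : i ≤ n)]
      exact hJ.mono i
    · by_cases h2 : i ≤ n
      · have h3 : i = n := by omega
        subst h3
        simp only [h1, if_false, le_refl, if_true, hJn]
        exact hle
      · simp only [h1, h2, if_false]
        exact le_rfl
  · intro i hi
    by_cases h1 : i + 1 ≤ n
    · simp only [h1, if_true, (by omega : i ≤ n)]
      exact hJ.fac i (by omega)
    · have h3 : i = n := by omega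
      subst h3
      simp only [h1, if_false, le_refl, if_true, hJn]
      exact hf
  · exact if_neg (Nat.not_succ_le_self n)

/-- a finitely generated subgroup of a directed union lies in a member -/
theorem fg_le {c : Set (Subgroup G)} (hne : c.Nonempty) (hdir : DirectedOn (· ≤ ·) c)
    {H : Subgroup G} (hH : H.FG) (hle : H ≤ sSup c) : ∃ K ∈ c, H ≤ K := by
  obtain ⟨E, rfl⟩ := hH
  have key : ∀ E : Finset G, (∀ x ∈ E, x ∈ sSup c) → ∃ K ∈ c, ∀ x ∈ E, x ∈ K := by
    classical
    intro E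
    induction E using Finset.induction_on with
    | empty =>
      intro _
      obtain ⟨K, hK⟩ := hne
      exact ⟨K, hK, by simp⟩
    | insert a s _ ih =>
      intro h
      obtain ⟨K, hK, h1⟩ := ih fun x hx => h x (Finset.mem_insert_of_mem hx)
      have h2 := h a (Finset.mem_insert_self _ _)
      rw [Subgroup.mem_sSup_of_directedOn hne hdir] at h2
      obtain ⟨K', hK', h3⟩ := h2
      obtain ⟨K'', hK'', h4, h5⟩ := hdir K hK K' hK'
      refine ⟨K'', hK'', fun x hx => ?_⟩
      rcases Finset.mem_insert.1 hx with rfl | hx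
      · exact h5 h3
      · exact h4 (h1 x hx)
  obtain ⟨K, hK, h⟩ := key E fun x hx => hle (Subgroup.subset_closure hx)
  exact ⟨K, hK, (Subgroup.closure_le _).2 fun x hx => h x hx⟩

theorem nc_map {Q : Type} [Group Q] (f : G →* Q) (N : Subgroup G) (x : G) :
    nc (N.map f) (f x) = (nc N x).map f := by
  unfold nc
  rw [MonoidHom.map_closure]
  congr 1
  ext y
  constructor
  · rintro ⟨_, ⟨u, hu, rfl⟩, rfl⟩
    exact ⟨u * x * u⁻¹, ⟨u, hu, rfl⟩, by simp⟩
  · rintro ⟨_, ⟨u, hu, rfl⟩, rfl⟩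
    exact ⟨f u, ⟨u, hu, rfl⟩, by simp⟩

theorem fit_map {Q : Type} [Group Q] (f : G →* Q) {N : Subgroup G} (h : Fit N) :
    Fit (N.map f) := by
  rintro _ ⟨x, hx, rfl⟩
  obtain ⟨c, hc⟩ := h x hx
  exact ⟨c, by rw [nc_map, ← Subgroup.map_lowerCentralSeries, hc, Subgroup.map_bot]⟩

end

end CH

open CH in
theorem ch_of_z : S_Z → S_NOE → S_NIL → S_CH := by
  intro hZ hNOE hNIL G _ N g hN hg hFit M hMN hMfg
  obtain ⟨cl, hcl⟩ := hNIL G N M hFit hMN hMfg
  have hfg : ∀ H : Subgroup G, H ≤ M → H.FG := hNOE G M cl hcl hMfg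
  obtain ⟨K, -, hK⟩ := zorn_le_nonempty₀ {K : Subgroup G | Good M N K} (fun c hc hch y hy => by
    have hne : c.Nonempty := ⟨y, hy⟩
    have hdir : DirectedOn (· ≤ ·) c := hch.directedOn
    have hnor : (sSup c).Normal := by
      refine ⟨fun n hn g => ?_⟩
      rw [Subgroup.mem_sSup_of_directedOn hne hdir] at hn ⊢
      obtain ⟨K, hK, hnK⟩ := hn
      exact ⟨K, hK, (hc hK).1.conj_mem n hnK g⟩
    obtain ⟨K₀, hK₀, h1⟩ := fg_le hne hdir (hfg (M ⊓ sSup c) inf_le_left) inf_le_right
    exact ⟨sSup c, extend (hc hK₀) hnor (le_sSup hK₀) (sSup_le fun K hK => (hc hK).2.1)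
      (Or.inr h1), fun z hz => le_sSup hz⟩) ⊥ (good_bot M N)
  have hKg : Good M N K := hK.prop
  have hKn : K.Normal := hKg.1
  have hKN : K ≤ N := hKg.2.1
  -- maximality
  have hmax : ∀ L : Subgroup G, Good M N L → K ≤ L → L ≤ K := fun L hL h => hK.le_of_ge hL h
  have heq : K = N := by
    by_contra hne
    set f := QuotientGroup.mk' K with hf
    have hfs : Function.Surjective f := QuotientGroup.mk'_surjective K
    have hker : ∀ x, f x = 1 ↔ x ∈ K := fun x => QuotientGroup.eq_one_iff x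
    have hN' : (N.map f).Normal := Subgroup.Normal.map hN f hfs
    have hgen : N.map f ⊔ Subgroup.zpowers (f g) = ⊤ := by
      rw [← MonoidHom.map_zpowers, ← Subgroup.map_sup, hg, Subgroup.map_top_of_surjective f hfs]
    have hM'fg : (M.map f).FG := by
      obtain ⟨E, hE⟩ := hMfg
      rw [Subgroup.fg_iff]
      exact ⟨f '' E, by rw [← MonoidHom.map_closure, hE], E.finite_toSet.image f⟩
    -- a subgroup of the quotient gives a good subgroup
    have hlift : ∀ L' : Subgroup (G ⧸ K), L'.Normal → L' ≤ N.map f → L' ≠ ⊥ →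
        (Ab K (L'.comap f) ∨ M ⊓ L'.comap f ≤ K) → False := by
      intro L' hL' hL'N hL'b hfac
      have h1 : K ≤ L'.comap f := by
        intro x hx
        rw [Subgroup.mem_comap, (hker x).2 hx]
        exact one_mem _
      have h2 : L'.comap f ≤ N := by
        intro x hx
        obtain ⟨y, hy, hxy⟩ := hL'N hx
        have h3 : y⁻¹ * x ∈ K := by
          rw [← hker, map_mul, map_inv, hxy, inv_mul_cancel]
        have h4 := N.mul_mem hy (hKN h3)
        rwa [mul_inv_cancel_left] at h4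
      have h3 := hmax _ (extend hKg (hL'.comap f) h1 h2 hfac) h1
      apply hL'b
      rw [Subgroup.eq_bot_iff_forall]
      intro q hq
      obtain ⟨x, rfl⟩ := hfs q
      exact (hker x).2 (h3 hq)
    by_cases hcase : ∀ L : Subgroup (G ⧸ K), L.Normal → L ≤ N.map f → L ≠ ⊥ → M.map f ⊓ L ≠ ⊥
    · have hNb : N.map f ≠ ⊥ := by
        intro h
        apply hne
        refine le_antisymm hKN fun x hx => ?_
        have h1 : f x ∈ N.map f := ⟨x, hx, rfl⟩
        rw [h, Subgroup.mem_bot] at h1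
        exact (hker x).1 h1
      obtain ⟨Z, hZn, hZN, hZb, hZa⟩ := hZ (G ⧸ K) (N.map f) (f g) hN' hgen (fit_map f hFit)
        (M.map f) (Subgroup.map_mono hMN) hM'fg hcase hNb
      refine hlift Z hZn hZN hZb (Or.inl ?_)
      intro a ha b hb
      rw [← hker, map_mul, map_mul, map_mul, map_inv, map_inv, hZa _ ha _ hb]
      simp
    · push Not at hcase
      obtain ⟨L, hLn, hLN, hLb, hML⟩ := hcase
      refine hlift L hLn hLN hLb (Or.inr ?_)
      rintro x ⟨hxM, hxL⟩
      have h1 : f x ∈ M.map f ⊓ L := ⟨⟨x, hxM, rfl⟩, hxL⟩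
      rw [hML, Subgroup.mem_bot] at h1
      exact (hker x).1 h1
  obtain ⟨-, -, n, J, hJ, hJn⟩ := hKg
  exact ⟨n, J, hJ, hJn.trans heq⟩

end Pool.Agent.N508.HF
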