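import Pool.Agent.R941.FJ.Hyper

/-!
# Kernels with a series that is seen or admissible: definitions and statements (helper508)
-/

set_option autoImplicit false

namespace Pool.Agent.N508.HF

open Pool.Agent.Y110.FJ

/-- `A` is normalized by `N` -/
def NInv {G : Type} [Group G] (N A : Subgroup G) : Prop := ∀ u ∈ N, ∀ a ∈ A, u * a * u⁻¹ ∈ A

/-- the normal closure of `x` in the subgroup `N` -/
def nc {G : Type} [Group G] (N : Subgroup G) (x : G) : Subgroup G :=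
  Subgroup.closure {y | ∃ u ∈ N, y = u * x * u⁻¹}

/-- each element of `N` has a nilpotent normal closure in `N` -/
def Fit {G : Type} [Group G] (N : Subgroup G) : Prop :=
  ∀ x ∈ N, ∃ c : ℕ, (nc N x).lowerCentralSeries c = ⊥

/-- `A` is locally finite modulo `M` -/
def LFmod {G : Type} [Group G] (M A : Subgroup G) : Prop :=
  ∀ E : Set G, E.Finite → E ⊆ A → M.relIndex (Subgroup.closure E) ≠ 0

/-- `K' / K` is abelian -/
def Ab {G : Type} [Group G] (K K' : Subgroup G) : Prop :=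
  ∀ a ∈ K', ∀ b ∈ K', a * b * a⁻¹ * b⁻¹ ∈ K

/-- all groups with abelian commutator subgroup are in `C` -/
def HasMet (C : ∀ (G : Type) [Group G], Prop) : Prop :=
  ∀ (S : Type) [Group S], (∀ a ∈ commutator S, ∀ b ∈ commutator S, a * b = b * a) → C S

/-- the factor `K' ⟨x⟩ / K` is in `C` for all `x` -/
def Adm (C : ∀ (G : Type) [Group G], Prop) {G : Type} [Group G] (K K' : Subgroup G) : Prop :=
  ∃ _ : K.Normal, ∀ x : G, C ↥((K' ⊔ Subgroup.zpowers x).map (QuotientGroup.mk' K))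

/-- a finite series of normal subgroups of `G` whose factors are admissible or not seen by `M` -/
structure Ch {G : Type} [Group G] (ad : Subgroup G → Subgroup G → Prop) (M : Subgroup G) (n : ℕ)
    (J : ℕ → Subgroup G) : Prop where
  bot : J 0 = ⊥
  nor : ∀ i, (J i).Normal
  mono : ∀ i, J i ≤ J (i + 1)
  fac : ∀ i < n, ad (J i) (J (i + 1)) ∨ M ⊓ J (i + 1) ≤ J i

/-- conjugation by `g` on `E` is realized in `C` if there is a series for `⟨E ∪ g E g⁻¹⟩` -/
def S_REAL : Prop := ∀ C : ∀ (G : Type) [Group G], Prop, ClosedE C →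
  ∀ (G : Type) [Group G] (g : G) (E : Set G), E.Finite → ∀ (n : ℕ) (J : ℕ → Subgroup G),
    Ch (Adm C) (Subgroup.closure (E ∪ (fun x => g * x * g⁻¹) '' E)) n J → E ⊆ J n → Realized C g E

/-- one step of `S_REAL` -/
def S_STEP : Prop := ∀ C : ∀ (G : Type) [Group G], Prop, ClosedE C →
  ∀ (G Q : Type) [Group G] [Group Q] (π : G →* Q), Function.Surjective π →
    (∀ x : G, C ↥(π.ker ⊔ Subgroup.zpowers x)) → ∀ (g : G) (E : Set G), E.Finite →
    Realized C (π g) (π '' E) → Realized C g E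

/-- products of two normal nilpotent subgroups, with the class -/
def S_FIT : Prop := ∀ (G : Type) [Group G] (A B : Subgroup G) (a b : ℕ), NInv B A → NInv A B →
  A.lowerCentralSeries a = ⊥ → B.lowerCentralSeries b = ⊥ → (A ⊔ B).lowerCentralSeries (a + b) = ⊥

/-- commutators of terms of the lower central series -/
def S_LCS : Prop := ∀ (G : Type) [Group G] (R : Subgroup G) (i j : ℕ),
  ⁅R.lowerCentralSeries i, R.lowerCentralSeries j⁆ ≤ R.lowerCentralSeries (i + j + 1)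

/-- isolators in nilpotent subgroups -/
def S_SUPI : Prop := ∀ (G : Type) [Group G] (R : Subgroup G) (c : ℕ), R.lowerCentralSeries c = ⊥ →
  ∀ (B : Subgroup G), B ≤ R → NInv R B → ∀ X : Set G, X ⊆ R →
    (∀ x ∈ X, ∃ n : ℕ, 0 < n ∧ x ^ n ∈ B) → ∀ x ∈ Subgroup.closure X, ∃ n : ℕ, 0 < n ∧ x ^ n ∈ B

/-- isolators and commutators in nilpotent subgroups -/
def S_ISO : Prop := ∀ (G : Type) [Group G] (R : Subgroup G) (c : ℕ), R.lowerCentralSeries c = ⊥ →
  ∀ (A A' B B' : Subgroup G), A ≤ R → A' ≤ R → B ≤ R → B' ≤ R →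
    NInv R A → NInv R A' → NInv R B → NInv R B' →
    (∀ x ∈ A, ∃ n : ℕ, 0 < n ∧ x ^ n ∈ A') → (∀ x ∈ B, ∃ n : ℕ, 0 < n ∧ x ^ n ∈ B') →
    ∀ x ∈ ⁅A, B⁆, ∃ n : ℕ, 0 < n ∧ x ^ n ∈ ⁅A', B'⁆

/-- the key: an element does not lie in the commutator subgroup of its normal closure -/
def S_KEY : Prop := ∀ (G : Type) [Group G] (N : Subgroup G) (g : G), N.Normal →
  N ⊔ Subgroup.zpowers g = ⊤ → Fit N → ∀ z ∈ N, z ≠ 1 → ∀ n : ℕ, 0 < n →
    z ^ n ∈ ⁅Subgroup.normalClosure {z}, Subgroup.normalClosure {z}⁆ →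
    (n = 1 ∨ ∀ k : ℕ, 0 < k → z ^ k ≠ 1) → False

/-- finitely generated subgroups of `N` are nilpotent -/
def S_NIL : Prop := ∀ (G : Type) [Group G] (N M : Subgroup G), Fit N → M ≤ N → M.FG →
  ∃ c : ℕ, M.lowerCentralSeries c = ⊥

/-- finitely generated nilpotent groups are polycyclic -/
def S_PC : Prop := ∀ (G : Type) [Group G] (M : Subgroup G) (c : ℕ), M.lowerCentralSeries c = ⊥ →
  M.FG → ∃ (s : ℕ) (D : ℕ → Subgroup G), D 0 = ⊥ ∧ D s = M ∧ (∀ i, D i ≤ D (i + 1)) ∧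
    ∀ i < s, NInv (D (i + 1)) (D i) ∧ ∃ t ∈ D (i + 1), D (i + 1) ≤ D i ⊔ Subgroup.zpowers t

/-- finitely generated nilpotent groups are noetherian -/
def S_NOE : Prop := ∀ (G : Type) [Group G] (M : Subgroup G) (c : ℕ), M.lowerCentralSeries c = ⊥ →
  M.FG → ∀ H : Subgroup G, H ≤ M → H.FG

/-- if all nontrivial normal subgroups of `G` in `N` are seen by `M` then there is an abelian one -/
def S_Z : Prop := ∀ (G : Type) [Group G] (N : Subgroup G) (g : G), N.Normal →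
  N ⊔ Subgroup.zpowers g = ⊤ → Fit N → ∀ M : Subgroup G, M ≤ N → M.FG →
    (∀ K : Subgroup G, K.Normal → K ≤ N → K ≠ ⊥ → M ⊓ K ≠ ⊥) → N ≠ ⊥ →
    ∃ Z : Subgroup G, Z.Normal ∧ Z ≤ N ∧ Z ≠ ⊥ ∧ ∀ a ∈ Z, ∀ b ∈ Z, a * b = b * a

/-- existence of the series -/
def S_CH : Prop := ∀ (G : Type) [Group G] (N : Subgroup G) (g : G), N.Normal →
  N ⊔ Subgroup.zpowers g = ⊤ → Fit N → ∀ M : Subgroup G, M ≤ N → M.FG →
    ∃ (n : ℕ) (J : ℕ → Subgroup G), Ch Ab M n J ∧ J n = N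

/-- the join of the conjugates of a nilpotent normal subgroup of `N / M` -/
def S_JN : Prop := ∀ (G : Type) [Group G] (M N A : Subgroup G), M.Normal → N.Normal → M ≤ A →
  A ≤ N → NInv N A → (∃ k : ℕ, A.lowerCentralSeries k ≤ M) →
    ∃ A' : Subgroup G, A'.Normal ∧ A ≤ A' ∧ A' ≤ N ∧
      ∀ x ∈ A', ∃ k : ℕ, (nc A' x).lowerCentralSeries k ≤ M

/-- the join of the conjugates of a locally finite normal subgroup of `N / M` -/
def S_JL : Prop := ∀ (G : Type) [Group G] (M N A : Subgroup G), M.Normal → N.Normal → M ≤ A →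
  A ≤ N → NInv N A → LFmod M A →
    ∃ A' : Subgroup G, A'.Normal ∧ A ≤ A' ∧ A' ≤ N ∧ LFmod M A'

end Pool.Agent.N508.HF
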