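import Mathlib
import Pool.Agent.N508.HF.Stm

/-!
# Products of nilpotent normal subgroups, commutators of the lower central series (helper887)
-/

set_option autoImplicit false

namespace Pool.Agent.N508.HF

namespace FitAux

open scoped commutatorElement

section

variable {G : Type} [Group G]

theorem three_rel (M : Subgroup G) [M.Normal] (H1 H2 H3 : Subgroup G) (h1 : ⁅⁅H2, H3⁆, H1⁆ ≤ M)
    (h2 : ⁅⁅H3, H1⁆, H2⁆ ≤ M) : ⁅⁅H1, H2⁆, H3⁆ ≤ M := by
  have key : ∀ X : Subgroup G, X ≤ M ↔ X.map (QuotientGroup.mk' M) = ⊥ := by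
    intro X
    rw [Subgroup.map_eq_bot_iff, QuotientGroup.ker_mk']
  rw [key, Subgroup.map_commutator, Subgroup.map_commutator] at h1 h2 ⊢
  exact Subgroup.commutator_commutator_eq_bot_of_rotate h1 h2

theorem lcs_comm (i j : ℕ) : ⁅(⊤ : Subgroup G).lowerCentralSeries i,
    (⊤ : Subgroup G).lowerCentralSeries j⁆ ≤ (⊤ : Subgroup G).lowerCentralSeries (i + j + 1) := by
  induction j generalizing i with
  | zero => exact le_refl _
  | succ j ih =>
    rw [Subgroup.commutator_comm]
    change ⁅⁅(⊤ : Subgroup G).lowerCentralSeries j, ⊤⁆, (⊤ : Subgroup G).lowerCentralSeries i⁆ ≤ _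
    apply three_rel
    · have h1 : ⁅(⊤ : Subgroup G), (⊤ : Subgroup G).lowerCentralSeries i⁆ =
          (⊤ : Subgroup G).lowerCentralSeries (i + 1) := Subgroup.commutator_comm _ _
      rw [h1]
      have := ih (i + 1)
      rw [show i + 1 + j + 1 = i + (j + 1) + 1 by ring] at this
      exact this
    · calc ⁅⁅(⊤ : Subgroup G).lowerCentralSeries i, (⊤ : Subgroup G).lowerCentralSeries j⁆, ⊤⁆
          ≤ ⁅(⊤ : Subgroup G).lowerCentralSeries (i + j + 1), ⊤⁆ :=
            Subgroup.commutator_mono (ih i) le_rfl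
        _ = (⊤ : Subgroup G).lowerCentralSeries (i + (j + 1) + 1) := by
            rw [show i + (j + 1) + 1 = (i + j + 1) + 1 by ring]
            rfl

/-- the lower central series of a subgroup is the image of that of the group -/
theorem lcs_top (R : Subgroup G) (n : ℕ) :
    ((⊤ : Subgroup R).lowerCentralSeries n).map R.subtype = R.lowerCentralSeries n := by
  rw [Subgroup.map_lowerCentralSeries, ← MonoidHom.range_eq_map, Subgroup.range_subtype]

/-- the elements which commute with `L` modulo `N` -/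
def Z (L N : Subgroup G) [N.Normal] : Subgroup G :=
  (Subgroup.centralizer ((L.map (QuotientGroup.mk' N) : Subgroup (G ⧸ N)) : Set (G ⧸ N))).comap
    (QuotientGroup.mk' N)

theorem le_Z (H L N : Subgroup G) [N.Normal] : ⁅H, L⁆ ≤ N ↔ H ≤ Z L N := by
  have key : ∀ X : Subgroup G, X ≤ N ↔ X.map (QuotientGroup.mk' N) = ⊥ := by
    intro X
    rw [Subgroup.map_eq_bot_iff, QuotientGroup.ker_mk']
  rw [key, Subgroup.map_commutator, Subgroup.commutator_eq_bot_iff_le_centralizer,
    Subgroup.map_le_iff_le_comap]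
  rfl

/-- the lower central series with a term before it -/
def AA (A : Subgroup G) : ℕ → Subgroup G
  | 0 => ⊤
  | (i + 1) => A.lowerCentralSeries i

instance AA_normal (A : Subgroup G) [A.Normal] (i : ℕ) : (AA A i).Normal := by
  cases i with
  | zero => exact Subgroup.normal_top
  | succ i => exact Subgroup.lowerCentralSeries_normal A i

theorem AA_comm (A : Subgroup G) [A.Normal] (i : ℕ) : ⁅AA A i, A⁆ ≤ AA A (i + 1) := by
  cases i with
  | zero => exact Subgroup.commutator_le_right _ _
  | succ i => exact le_refl _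

/-- the terms of weight `n` -/
def SS (A B : Subgroup G) (n : ℕ) : Subgroup G :=
  ⨆ i : ℕ, ⨆ j : ℕ, ⨆ _ : i + j = n + 1, AA A i ⊓ AA B j

instance SS_normal (A B : Subgroup G) [A.Normal] [B.Normal] (n : ℕ) : (SS A B n).Normal := by
  unfold SS
  infer_instance

theorem le_SS (A B : Subgroup G) (n i j : ℕ) (h : i + j = n + 1) :
    AA A i ⊓ AA B j ≤ SS A B n :=
  le_trans (le_iSup (fun _ : i + j = n + 1 => AA A i ⊓ AA B j) h)
    (le_trans (le_iSup (fun j : ℕ => ⨆ _ : i + j = n + 1, AA A i ⊓ AA B j) j)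
      (le_iSup (fun i : ℕ => ⨆ j : ℕ, ⨆ _ : i + j = n + 1, AA A i ⊓ AA B j) i))

theorem lcs_le_SS (A B : Subgroup G) [A.Normal] [B.Normal] (hAB : A ⊔ B = ⊤) (n : ℕ) :
    (⊤ : Subgroup G).lowerCentralSeries n ≤ SS A B n := by
  induction n with
  | zero =>
    have h1 : A ≤ SS A B 0 := by
      refine le_trans ?_ (le_SS A B 0 1 0 rfl)
      exact le_inf (le_refl _) le_top
    have h2 : B ≤ SS A B 0 := by
      refine le_trans ?_ (le_SS A B 0 0 1 rfl)
      exact le_inf le_top (le_refl _)
    calc (⊤ : Subgroup G).lowerCentralSeries 0 ≤ ⊤ := le_top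
      _ = A ⊔ B := hAB.symm
      _ ≤ SS A B 0 := sup_le h1 h2
  | succ n ih =>
    have h1 : ⁅SS A B n, A ⊔ B⁆ ≤ SS A B (n + 1) := by
      rw [le_Z]
      unfold SS
      refine iSup_le fun i => iSup_le fun j => iSup_le fun hij => ?_
      change AA A i ⊓ AA B j ≤ Z (A ⊔ B) (SS A B (n + 1))
      rw [← le_Z, Subgroup.commutator_comm, le_Z]
      refine sup_le ?_ ?_
      · rw [← le_Z, Subgroup.commutator_comm]
        refine le_trans ?_ (le_SS A B (n + 1) (i + 1) j (by omega))
        refine le_inf ?_ ?_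
        · exact (Subgroup.commutator_mono inf_le_left le_rfl).trans (AA_comm A i)
        · exact (Subgroup.commutator_mono inf_le_right le_rfl).trans
            (Subgroup.commutator_le_left _ _)
      · rw [← le_Z, Subgroup.commutator_comm]
        refine le_trans ?_ (le_SS A B (n + 1) i (j + 1) (by omega))
        refine le_inf ?_ ?_
        · exact (Subgroup.commutator_mono inf_le_left le_rfl).trans
            (Subgroup.commutator_le_left _ _)
        · exact (Subgroup.commutator_mono inf_le_right le_rfl).trans (AA_comm B j)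
    rw [hAB] at h1
    exact (Subgroup.commutator_mono ih le_rfl).trans h1

theorem fit_top (A B : Subgroup G) [A.Normal] [B.Normal] (hAB : A ⊔ B = ⊤) (a b : ℕ)
    (hA : A.lowerCentralSeries a = ⊥) (hB : B.lowerCentralSeries b = ⊥) :
    (⊤ : Subgroup G).lowerCentralSeries (a + b) = ⊥ := by
  rw [eq_bot_iff]
  refine (lcs_le_SS A B hAB (a + b)).trans ?_
  unfold SS
  refine iSup_le fun i => iSup_le fun j => iSup_le fun hij => ?_
  rcases Nat.lt_or_ge a i with h | h
  · obtain ⟨k, rfl⟩ : ∃ k, i = k + 1 := ⟨i - 1, by omega⟩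
    refine inf_le_left.trans ?_
    rw [← hA]
    exact A.lowerCentralSeries_antitone (by omega)
  · obtain ⟨k, rfl⟩ : ∃ k, j = k + 1 := ⟨j - 1, by omega⟩
    refine inf_le_right.trans ?_
    rw [← hB]
    exact B.lowerCentralSeries_antitone (by omega)

theorem norm_of (A R : Subgroup G) (hAR : A ≤ R) (h : NInv R A) : (A.subgroupOf R).Normal :=
  (Subgroup.normal_subgroupOf_iff hAR).2 fun a u ha hu => h u hu a ha

theorem ninv_sup (A B : Subgroup G) (h : NInv B A) : NInv (A ⊔ B) A := by
  have h1 : A ⊔ B ≤ Subgroup.normalizer (A : Set G) := by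
    refine sup_le Subgroup.le_normalizer ?_
    intro u hu
    rw [Subgroup.mem_normalizer_iff]
    intro x
    constructor
    · intro hx
      exact h u hu x hx
    · intro hx
      have h2 := h u⁻¹ (B.inv_mem hu) _ hx
      have h3 : u⁻¹ * (u * x * u⁻¹) * u⁻¹⁻¹ = x := by group
      rwa [h3] at h2
  intro u hu x hx
  exact ((Subgroup.mem_normalizer_iff.1 (h1 hu)) x).1 hx

end

end FitAux

open FitAux

theorem t_lcs : S_LCS := by
  intro G _ R i j
  rw [← lcs_top R i, ← lcs_top R j, ← lcs_top R (i + j + 1), ← Subgroup.map_commutator]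
  exact Subgroup.map_mono (lcs_comm i j)

theorem t_fit : S_FIT := by
  intro G _ A B a b h1 h2 hA hB
  obtain ⟨R, hR⟩ : ∃ R, R = A ⊔ B := ⟨_, rfl⟩
  have hAR : A ≤ R := by
    rw [hR]
    exact le_sup_left
  have hBR : B ≤ R := by
    rw [hR]
    exact le_sup_right
  have n1 : (A.subgroupOf R).Normal := norm_of A R hAR (by rw [hR]; exact ninv_sup A B h1)
  have n2 : (B.subgroupOf R).Normal :=
    norm_of B R hBR (by rw [hR, sup_comm]; exact ninv_sup B A h2)
  have hinj : Function.Injective R.subtype := R.subtype_injective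
  have k1 : (A.subgroupOf R).lowerCentralSeries a = ⊥ := by
    rw [← Subgroup.map_eq_bot_iff_of_injective _ hinj, Subgroup.map_lowerCentralSeries,
      Subgroup.map_subgroupOf_eq_of_le hAR, hA]
  have k2 : (B.subgroupOf R).lowerCentralSeries b = ⊥ := by
    rw [← Subgroup.map_eq_bot_iff_of_injective _ hinj, Subgroup.map_lowerCentralSeries,
      Subgroup.map_subgroupOf_eq_of_le hBR, hB]
  have k3 : A.subgroupOf R ⊔ B.subgroupOf R = ⊤ := by
    apply Subgroup.map_injective hinj
    rw [Subgroup.map_sup, Subgroup.map_subgroupOf_eq_of_le hAR,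
      Subgroup.map_subgroupOf_eq_of_le hBR, ← hR, ← MonoidHom.range_eq_map, Subgroup.range_subtype]
  have k4 := fit_top (A.subgroupOf R) (B.subgroupOf R) k3 a b k1 k2
  rw [← hR, ← lcs_top R (a + b), k4, Subgroup.map_bot]

end Pool.Agent.N508.HF
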