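import Pool.Agent.N508.HF.Stm

/-!
Project HF (helper508): isolators in nilpotent groups (helper169).
-/

set_option autoImplicit false

namespace Pool.Agent.N508.HF

open Subgroup
open scoped commutatorElement

/-- a power of a conjugate when the commutator is central -/
theorem iso_conj_pow {H : Type*} [Group H] {u x y : H} (hu : Commute x u) (h : x * y * x⁻¹ = u * y) (n : ℕ) :
    x ^ n * y * (x ^ n)⁻¹ = u ^ n * y := by
  induction n with
  | zero => simp
  | succ n ih =>
    have e1 : x ^ (n + 1) * y * (x ^ (n + 1))⁻¹ = x * (x ^ n * y * (x ^ n)⁻¹) * x⁻¹ := by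
      rw [pow_succ' x n, mul_inv_rev]
      group
    have e2 : x * (u ^ n * y) * x⁻¹ = u ^ n * (x * y * x⁻¹) := by
      have := (hu.pow_right n).eq
      calc x * (u ^ n * y) * x⁻¹ = (x * u ^ n) * y * x⁻¹ := by group
        _ = (u ^ n * x) * y * x⁻¹ := by rw [this]
        _ = u ^ n * (x * y * x⁻¹) := by group
    rw [e1, ih, e2, h, pow_succ u n, mul_assoc]

theorem iso_quot_pow {H : Type*} [Group H] (N : Subgroup H) [N.Normal] (x : H) (n : ℕ) :
    (QuotientGroup.mk' N x) ^ n = 1 ↔ x ^ n ∈ N := by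
  rw [← map_pow, QuotientGroup.mk'_apply, QuotientGroup.eq_one_iff]

/-- products of torsion elements which commute -/
theorem iso_comm_mul {H : Type*} [Group H] {x y : H} (hc : Commute x y) (hx : ∃ n : ℕ, 0 < n ∧ x ^ n = 1)
    (hy : ∃ n : ℕ, 0 < n ∧ y ^ n = 1) : ∃ n : ℕ, 0 < n ∧ (x * y) ^ n = 1 := by
  obtain ⟨n, hn, hx⟩ := hx
  obtain ⟨m, hm, hy⟩ := hy
  refine ⟨n * m, Nat.mul_pos hn hm, ?_⟩
  rw [hc.mul_pow, pow_mul, hx, one_pow, one_mul, mul_comm n m, pow_mul, hy, one_pow]

/-- powers in the next term of the lower central series -/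
theorem iso_step {H : Type*} [Group H] (X : Set H) (hX : closure X = ⊤)
    (hT : ∀ x ∈ X, ∃ n : ℕ, 0 < n ∧ x ^ n = 1) (i : ℕ) :
    ∀ x ∈ (⊤ : Subgroup H).lowerCentralSeries i,
      ∃ n : ℕ, 0 < n ∧ x ^ n ∈ (⊤ : Subgroup H).lowerCentralSeries (i + 1) := by
  induction i with
  | zero =>
    intro x _
    have hx : x ∈ closure X := by
      rw [hX]
      exact mem_top x
    have hab : ∀ a b : H, Commute (QuotientGroup.mk' ((⊤ : Subgroup H).lowerCentralSeries 1) a)
        (QuotientGroup.mk' ((⊤ : Subgroup H).lowerCentralSeries 1) b) := by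
      intro a b
      rw [← commutatorElement_eq_one_iff_commute, ← map_commutatorElement, QuotientGroup.mk'_apply,
        QuotientGroup.eq_one_iff]
      exact commutator_mem_commutator (mem_top a) (mem_top b)
    induction hx using closure_induction with
    | mem x hx =>
      obtain ⟨n, hn, h⟩ := hT x hx
      exact ⟨n, hn, by rw [h]; exact one_mem _⟩
    | one => exact ⟨1, one_pos, by rw [one_pow]; exact one_mem _⟩
    | mul x y _ _ hx hy =>
      have h := iso_comm_mul (hab x y)
        (by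
          obtain ⟨n, hn, h⟩ := hx (mem_top _)
          exact ⟨n, hn, (iso_quot_pow _ x n).2 h⟩)
        (by
          obtain ⟨n, hn, h⟩ := hy (mem_top _)
          exact ⟨n, hn, (iso_quot_pow _ y n).2 h⟩)
      obtain ⟨n, hn, h⟩ := h
      rw [← map_mul] at h
      exact ⟨n, hn, (iso_quot_pow _ _ n).1 h⟩
    | inv x _ hx =>
      obtain ⟨n, hn, h⟩ := hx (mem_top _)
      exact ⟨n, hn, by rw [inv_pow]; exact inv_mem h⟩
  | succ i ih =>
    intro x hx
    have hcen : ∀ a ∈ (⊤ : Subgroup H).lowerCentralSeries (i + 1), ∀ b : H,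
        Commute (QuotientGroup.mk' ((⊤ : Subgroup H).lowerCentralSeries (i + 1 + 1)) a)
        (QuotientGroup.mk' ((⊤ : Subgroup H).lowerCentralSeries (i + 1 + 1)) b) := by
      intro a ha b
      rw [← commutatorElement_eq_one_iff_commute, ← map_commutatorElement, QuotientGroup.mk'_apply,
        QuotientGroup.eq_one_iff]
      exact commutator_mem_commutator ha (mem_top b)
    rw [Subgroup.mem_lowerCentralSeries_succ_iff] at hx
    have hsub : ∀ x, x ∈ closure {x | ∃ p ∈ (⊤ : Subgroup H).lowerCentralSeries i,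
        ∃ q ∈ (⊤ : Subgroup H), ⁅p, q⁆ = x} → x ∈ (⊤ : Subgroup H).lowerCentralSeries (i + 1) :=
      fun x hx => (Subgroup.mem_lowerCentralSeries_succ_iff _ _ _).2 hx
    induction hx using closure_induction with
    | mem x hx =>
      obtain ⟨p, hp, q, _, rfl⟩ := hx
      obtain ⟨n, hn, h⟩ := ih p hp
      refine ⟨n, hn, ?_⟩
      set f := QuotientGroup.mk' ((⊤ : Subgroup H).lowerCentralSeries (i + 1 + 1)) with hf
      have hu : ⁅p, q⁆ ∈ (⊤ : Subgroup H).lowerCentralSeries (i + 1) := commutator_mem_commutator hp (mem_top q)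
      have c1 : Commute (f p) (f ⁅p, q⁆) := (hcen _ hu p).symm
      have c2 : f p * f q * (f p)⁻¹ = f ⁅p, q⁆ * f q := by
        rw [← map_mul, ← map_inv, ← map_mul, ← map_mul, commutatorElement_def]
        congr 1
        group
      have c3 := iso_conj_pow c1 c2 n
      have c4 : Commute (f p ^ n) (f q) := by
        rw [← map_pow]
        exact hcen _ h q
      have c5 : f q = (f ⁅p, q⁆) ^ n * f q := by
        rw [← c3, c4.eq]
        group
      have c6 : (f ⁅p, q⁆) ^ n = 1 := mul_eq_right.1 c5.symm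
      exact (iso_quot_pow _ _ n).1 c6
    | one => exact ⟨1, one_pos, by rw [one_pow]; exact one_mem _⟩
    | mul x y hx' hy' hx hy =>
      have h := iso_comm_mul (hcen x (hsub x hx') y)
        (by
          obtain ⟨n, hn, h⟩ := hx
          exact ⟨n, hn, (iso_quot_pow _ x n).2 h⟩)
        (by
          obtain ⟨n, hn, h⟩ := hy
          exact ⟨n, hn, (iso_quot_pow _ y n).2 h⟩)
      obtain ⟨n, hn, h⟩ := h
      rw [← map_mul] at h
      exact ⟨n, hn, (iso_quot_pow _ _ n).1 h⟩
    | inv x _ hx =>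
      obtain ⟨n, hn, h⟩ := hx
      exact ⟨n, hn, by rw [inv_pow]; exact inv_mem h⟩

/-- a nilpotent group generated by torsion elements is a torsion group -/
theorem iso_tor {H : Type*} [Group H] [Group.IsNilpotent H] (X : Set H) (hX : closure X = ⊤)
    (hT : ∀ x ∈ X, ∃ n : ℕ, 0 < n ∧ x ^ n = 1) (x : H) : ∃ n : ℕ, 0 < n ∧ x ^ n = 1 := by
  obtain ⟨c, hc⟩ := Subgroup.nilpotent_iff_lowerCentralSeries.1 (inferInstance : Group.IsNilpotent H)
  have key : ∀ i : ℕ, ∃ n : ℕ, 0 < n ∧ x ^ n ∈ (⊤ : Subgroup H).lowerCentralSeries i := by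
    intro i
    induction i with
    | zero => exact ⟨1, one_pos, mem_top _⟩
    | succ i ih =>
      obtain ⟨n, hn, h⟩ := ih
      obtain ⟨m, hm, h'⟩ := iso_step X hX hT i _ h
      exact ⟨n * m, Nat.mul_pos hn hm, by rw [pow_mul]; exact h'⟩
  obtain ⟨n, hn, h⟩ := key c
  rw [hc, mem_bot] at h
  exact ⟨n, hn, h⟩

theorem iso_tor' {H : Type*} [Group H] [Group.IsNilpotent H] (X : Set H)
    (hT : ∀ x ∈ X, ∃ n : ℕ, 0 < n ∧ x ^ n = 1) (x : H) (hx : x ∈ closure X) : ∃ n : ℕ, 0 < n ∧ x ^ n = 1 := by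
  obtain ⟨n, hn, h⟩ := iso_tor (H := ↥(closure X)) (((↑) : closure X → H) ⁻¹' X) closure_closure_coe_preimage
    (fun y hy => by
      obtain ⟨n, hn, h⟩ := hT (y : H) hy
      refine ⟨n, hn, ?_⟩
      apply Subtype.ext
      push_cast
      exact h) ⟨x, hx⟩
  refine ⟨n, hn, ?_⟩
  have := congrArg Subtype.val h
  push_cast at this
  exact this

theorem iso_normal {G : Type} [Group G] {R B : Subgroup G} (hB : NInv R B) : (B.subgroupOf R).Normal := by
  constructor
  intro n hn g
  rw [mem_subgroupOf] at hn ⊢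
  have := hB (g : G) g.2 (n : G) hn
  simpa using this

theorem t_supi : S_SUPI := by
  intro G _ R c hR B hBR hB X hXR hX x hx
  have : Group.IsNilpotent ↥R := isNilpotent_of_lowerCentralSeries_eq_bot hR
  have : (B.subgroupOf R).Normal := iso_normal hB
  have hcl : closure X ≤ R := (closure_le R).2 hXR
  set f : ↥R →* ↥R ⧸ B.subgroupOf R := QuotientGroup.mk' (B.subgroupOf R) with hf
  set X' : Set (↥R ⧸ B.subgroupOf R) := {z | ∃ y : ↥R, (y : G) ∈ X ∧ f y = z} with hX'
  have hT : ∀ z ∈ X', ∃ n : ℕ, 0 < n ∧ z ^ n = 1 := by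
    rintro z ⟨y, hy, rfl⟩
    obtain ⟨n, hn, h⟩ := hX (y : G) hy
    refine ⟨n, hn, (iso_quot_pow _ y n).2 ?_⟩
    rw [mem_subgroupOf]
    push_cast
    exact h
  have key : ∀ x (hx : x ∈ closure X), f ⟨x, hcl hx⟩ ∈ closure X' := by
    intro x hx
    induction hx using closure_induction with
    | mem x hx => exact subset_closure ⟨⟨x, hXR hx⟩, hx, rfl⟩
    | one =>
      have : (⟨1, hcl (one_mem _)⟩ : ↥R) = 1 := rfl
      rw [this, map_one]
      exact one_mem _
    | mul x y hx' hy' hx hy =>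
      have : (⟨x * y, hcl (mul_mem hx' hy')⟩ : ↥R) = ⟨x, hcl hx'⟩ * ⟨y, hcl hy'⟩ := rfl
      rw [this, map_mul]
      exact mul_mem hx hy
    | inv x hx' hx =>
      have : (⟨x⁻¹, hcl (inv_mem hx')⟩ : ↥R) = (⟨x, hcl hx'⟩ : ↥R)⁻¹ := rfl
      rw [this, map_inv]
      exact inv_mem hx
  obtain ⟨n, hn, h⟩ := iso_tor' X' hT _ (key x hx)
  rw [iso_quot_pow, mem_subgroupOf] at h
  exact ⟨n, hn, by push_cast at h; exact h⟩

/-- centralizers in torsion-free nilpotent groups -/
theorem iso_center {H : Type*} [Group H] [Group.IsNilpotent H]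
    (htf : ∀ x : H, ∀ n : ℕ, 0 < n → x ^ n = 1 → x = 1) {x : H} {n : ℕ} (hn : 0 < n)
    (hx : ∀ h : H, Commute (x ^ n) h) (h : H) : Commute x h := by
  have key : ∀ i : ℕ, ∀ h ∈ Subgroup.upperCentralSeries H i, Commute x h := by
    intro i
    induction i with
    | zero =>
      intro h hh
      rw [Subgroup.upperCentralSeries_zero, mem_bot] at hh
      rw [hh]
      exact Commute.one_right x
    | succ i ih =>
      intro h hh
      rw [Subgroup.mem_upperCentralSeries_succ_iff] at hh
      have h1 := hh x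
      have h2 : x * h * x⁻¹ * h⁻¹ ∈ Subgroup.upperCentralSeries H i := by
        have := inv_mem h1
        rwa [commutatorElement_inv, commutatorElement_def] at this
      have c1 : Commute x (x * h * x⁻¹ * h⁻¹) := ih _ h2
      have c2 : x * h * x⁻¹ = (x * h * x⁻¹ * h⁻¹) * h := by group
      have c3 := iso_conj_pow c1 c2 n
      have c4 : (x * h * x⁻¹ * h⁻¹) ^ n = 1 := by
        rw [(hx h).eq] at c3
        have := congrArg (fun z => z * h⁻¹) c3
        simpa using this.symm
      have c5 := htf _ n hn c4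
      show x * h = h * x
      have := congrArg (fun z => z * h * x) c5
      simpa using this
  obtain ⟨c, hc⟩ := Group.IsNilpotent.nilpotent H
  exact key c h (by rw [hc]; exact mem_top h)

theorem iso_root1 {H : Type*} [Group H] [Group.IsNilpotent H]
    (htf : ∀ x : H, ∀ n : ℕ, 0 < n → x ^ n = 1 → x = 1) {a b : H} {n : ℕ} (hn : 0 < n)
    (h : Commute (a ^ n) b) : Commute a b := by
  have ha : a ∈ closure ({a, b} : Set H) := subset_closure (by simp)
  have hb : b ∈ closure ({a, b} : Set H) := subset_closure (by simp)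
  have hall : ∀ g ∈ closure ({a, b} : Set H), Commute (a ^ n) g := by
    intro g hg
    induction hg using closure_induction with
    | mem x hx =>
      rcases hx with rfl | hx
      · exact (Commute.refl _).pow_left n
      · rw [Set.mem_singleton_iff] at hx
        rw [hx]
        exact h
    | one => exact Commute.one_right _
    | mul x y _ _ hx hy => exact hx.mul_right hy
    | inv x _ hx => exact hx.inv_right
  have h1 := iso_center (H := ↥(closure ({a, b} : Set H)))
    (fun x m hm hx => by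
      apply Subtype.ext
      refine htf _ m hm ?_
      have := congrArg Subtype.val hx
      push_cast at this
      exact this) (x := ⟨a, ha⟩) hn
    (fun g => by
      have := hall (g : H) g.2
      show (⟨a, ha⟩ : ↥(closure ({a, b} : Set H))) ^ n * g = g * (⟨a, ha⟩ : ↥(closure ({a, b} : Set H))) ^ n
      apply Subtype.ext
      push_cast
      exact this) ⟨b, hb⟩
  have := congrArg Subtype.val h1.eq
  push_cast at this
  exact this

theorem iso_root {H : Type*} [Group H] [Group.IsNilpotent H]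
    (htf : ∀ x : H, ∀ n : ℕ, 0 < n → x ^ n = 1 → x = 1) {a b : H} {n m : ℕ} (hn : 0 < n) (hm : 0 < m)
    (h : Commute (a ^ n) (b ^ m)) : Commute a b :=
  (iso_root1 htf hm (iso_root1 htf hn h).symm).symm

/-- commuting powers: the commutator is a torsion element -/
theorem iso_comm {H : Type*} [Group H] [Group.IsNilpotent H] {a b : H} {n m : ℕ} (hn : 0 < n) (hm : 0 < m)
    (h : Commute (a ^ n) (b ^ m)) : ∃ k : ℕ, 0 < k ∧ ⁅a, b⁆ ^ k = 1 := by
  -- the torsion subgroup
  let T : Subgroup H :=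
    { carrier := {x | ∃ k : ℕ, 0 < k ∧ x ^ k = 1}
      one_mem' := ⟨1, one_pos, one_pow 1⟩
      mul_mem' := fun {x y} hx hy => iso_tor' ({x, y} : Set H)
        (fun z hz => by
          rcases hz with rfl | hz
          · exact hx
          · rw [Set.mem_singleton_iff] at hz
            rw [hz]
            exact hy) (x * y)
        (mul_mem (subset_closure (by simp)) (subset_closure (by simp)))
      inv_mem' := fun {x} hx => by
        obtain ⟨k, hk, h⟩ := hx
        exact ⟨k, hk, by rw [inv_pow, h, inv_one]⟩ }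
  have hT : ∀ x, x ∈ T ↔ ∃ k : ℕ, 0 < k ∧ x ^ k = 1 := fun x => Iff.rfl
  have : T.Normal := by
    constructor
    intro x hx g
    obtain ⟨k, hk, h⟩ := hx
    refine ⟨k, hk, ?_⟩
    rw [conj_pow, h]
    group
  have htf : ∀ x : H ⧸ T, ∀ n : ℕ, 0 < n → x ^ n = 1 → x = 1 := by
    intro x n hn hx
    obtain ⟨y, rfl⟩ := QuotientGroup.mk'_surjective T x
    rw [iso_quot_pow, hT] at hx
    obtain ⟨k, hk, h⟩ := hx
    rw [QuotientGroup.mk'_apply, QuotientGroup.eq_one_iff, hT]
    exact ⟨n * k, Nat.mul_pos hn hk, by rw [pow_mul]; exact h⟩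
  have h1 : Commute ((QuotientGroup.mk' T a) ^ n) ((QuotientGroup.mk' T b) ^ m) := by
    rw [← map_pow, ← map_pow]
    exact h.map _
  have h2 := iso_root htf hn hm h1
  rw [← commutatorElement_eq_one_iff_commute, ← map_commutatorElement, QuotientGroup.mk'_apply,
    QuotientGroup.eq_one_iff, hT] at h2
  exact h2

theorem iso_ninv {G : Type} [Group G] {R A B : Subgroup G} (hA : NInv R A) (hB : NInv R B) :
    NInv R ⁅A, B⁆ := by
  intro u hu x hx
  have h1 : ∀ {A : Subgroup G}, NInv R A → A.map (MulAut.conj u).toMonoidHom ≤ A := by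
    intro A hA
    rw [map_le_iff_le_comap]
    intro a ha
    rw [mem_comap]
    exact hA u hu a ha
  have h2 : ⁅A, B⁆.map (MulAut.conj u).toMonoidHom ≤ ⁅A, B⁆ := by
    rw [map_commutator]
    exact commutator_mono (h1 hA) (h1 hB)
  exact h2 (mem_map_of_mem _ hx)

theorem t_iso : S_ISO := by
  intro G _ R c hR A A' B B' hAR hA'R hBR hB'R hA hA' hB hB' hAp hBp x hx
  have hD : NInv R ⁅A', B'⁆ := iso_ninv hA' hB'
  have hDR : ⁅A', B'⁆ ≤ R := by
    rw [commutator_le]
    intro a ha b hb
    exact mul_mem (mul_mem (mul_mem (hA'R ha) (hB'R hb)) (inv_mem (hA'R ha))) (inv_mem (hB'R hb))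
  have : Group.IsNilpotent ↥R := isNilpotent_of_lowerCentralSeries_eq_bot hR
  have : (⁅A', B'⁆.subgroupOf R).Normal := iso_normal hD
  rw [Subgroup.commutator_def] at hx
  refine t_supi G R c hR ⁅A', B'⁆ hDR hD _ ?_ ?_ x hx
  · rintro _ ⟨a, ha, b, hb, rfl⟩
    exact mul_mem (mul_mem (mul_mem (hAR ha) (hBR hb)) (inv_mem (hAR ha))) (inv_mem (hBR hb))
  · rintro _ ⟨a, ha, b, hb, rfl⟩
    obtain ⟨n, hn, hna⟩ := hAp a ha
    obtain ⟨m, hm, hmb⟩ := hBp b hb
    have h1 : Commute ((QuotientGroup.mk' (⁅A', B'⁆.subgroupOf R) ⟨a, hAR ha⟩) ^ n)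
        ((QuotientGroup.mk' (⁅A', B'⁆.subgroupOf R) ⟨b, hBR hb⟩) ^ m) := by
      rw [← commutatorElement_eq_one_iff_commute, ← map_pow, ← map_pow, ← map_commutatorElement,
        QuotientGroup.mk'_apply, QuotientGroup.eq_one_iff, mem_subgroupOf]
      exact commutator_mem_commutator hna hmb
    obtain ⟨k, hk, h⟩ := iso_comm hn hm h1
    rw [← map_commutatorElement, iso_quot_pow, mem_subgroupOf] at h
    exact ⟨k, hk, h⟩

end Pool.Agent.N508.HF
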