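import Pool.Agent.N508.HF.Stm

/-!
# Project HF (helper508), JOIN (helper40): joins of the conjugates of nilpotent or locally finite
normal subgroups
-/

set_option autoImplicit false

namespace Pool.Agent.N508.HF

namespace JOIN

section
variable {G : Type} [Group G]

theorem mem_sup_normal {M K : Subgroup G} [M.Normal] {x : G} :
    x ∈ M ⊔ K ↔ ∃ a ∈ M, ∃ b ∈ K, a * b = x := by
  rw [← SetLike.mem_coe, Subgroup.normal_mul, Set.mem_mul]
  rfl

/-- the conjugate of `T` by `h` -/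
def cj (h : G) (T : Subgroup G) : Subgroup G := T.map (MulAut.conj h).toMonoidHom

theorem mem_cj {h : G} {T : Subgroup G} {x : G} : x ∈ cj h T ↔ h⁻¹ * x * h ∈ T := by
  constructor
  · rintro ⟨t, ht, rfl⟩
    have h1 : h⁻¹ * ((MulAut.conj h).toMonoidHom t) * h = t := by
      show h⁻¹ * (h * t * h⁻¹) * h = t
      group
    rw [h1]
    exact ht
  · intro hx
    refine ⟨h⁻¹ * x * h, hx, ?_⟩
    show h * (h⁻¹ * x * h) * h⁻¹ = x
    group

theorem cj_normal {h : G} {M : Subgroup G} (hM : M.Normal) : cj h M = M := by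
  ext x
  rw [mem_cj]
  constructor
  · intro hx
    have := hM.conj_mem _ hx h
    have e : h * (h⁻¹ * x * h) * h⁻¹ = x := by group
    rwa [e] at this
  · intro hx
    have := hM.conj_mem _ hx h⁻¹
    rwa [inv_inv] at this

theorem cj_mono {h : G} {S T : Subgroup G} (hST : S ≤ T) : cj h S ≤ cj h T :=
  Subgroup.map_mono hST

theorem ninv_cj {N T : Subgroup G} (hN : N.Normal) (hT : NInv N T) (h : G) : NInv N (cj h T) := by
  intro u hu a ha
  rw [mem_cj] at ha ⊢
  have h1 := hT (h⁻¹ * u * h) (by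
    have := hN.conj_mem u hu h⁻¹
    rwa [inv_inv] at this) _ ha
  have e : h⁻¹ * u * h * (h⁻¹ * a * h) * (h⁻¹ * u * h)⁻¹ = h⁻¹ * (u * a * u⁻¹) * h := by group
  rwa [e] at h1

theorem ninv_sup {N X Y : Subgroup G} (hX : NInv N X) (hY : NInv N Y) : NInv N (X ⊔ Y) := by
  intro u hu a ha
  have h1 : X ⊔ Y ≤ (X ⊔ Y).comap (MulAut.conj u).toMonoidHom := by
    refine sup_le ?_ ?_
    · intro x hx
      exact Subgroup.mem_sup_left (hX u hu x hx)
    · intro x hx
      exact Subgroup.mem_sup_right (hY u hu x hx)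
  exact h1 ha

/-- the join of all subgroups with a property -/
theorem join (P : Subgroup G → Prop) (N A : Subgroup G) (hA : P A) (hN : ∀ T, P T → T ≤ N)
    (hsup : ∀ X Y, P X → P Y → P (X ⊔ Y)) (hcj : ∀ (h : G) T, P T → P (cj h T)) :
    ∃ A' : Subgroup G, A'.Normal ∧ A ≤ A' ∧ A' ≤ N ∧ ∀ E : Set G, E.Finite → E ⊆ A' →
      ∃ T, P T ∧ E ⊆ T := by
  have hne : ({T | P T} : Set (Subgroup G)).Nonempty := ⟨A, hA⟩
  have hdir : DirectedOn (· ≤ ·) {T : Subgroup G | P T} := by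
    intro X hX Y hY
    exact ⟨X ⊔ Y, hsup X Y hX hY, le_sup_left, le_sup_right⟩
  refine ⟨sSup {T | P T}, ⟨?_⟩, le_sSup hA, sSup_le hN, ?_⟩
  · intro n hn h
    rw [Subgroup.mem_sSup_of_directedOn hne hdir] at hn ⊢
    obtain ⟨T, hT, hnT⟩ := hn
    refine ⟨cj h T, hcj h T hT, ?_⟩
    rw [mem_cj]
    have e : h⁻¹ * (h * n * h⁻¹) * h = n := by group
    rwa [e]
  · intro E hE
    induction E, hE using Set.Finite.induction_on with
    | empty => exact fun _ => ⟨A, hA, Set.empty_subset _⟩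
    | @insert a s _ _ ih =>
      intro h
      obtain ⟨T, hT, h1⟩ := ih ((Set.subset_insert _ _).trans h)
      have h2 : a ∈ sSup {T | P T} := h (Set.mem_insert _ _)
      rw [Subgroup.mem_sSup_of_directedOn hne hdir] at h2
      obtain ⟨T', hT', h3⟩ := h2
      refine ⟨T ⊔ T', hsup T T' hT hT', Set.insert_subset ?_ ?_⟩
      · exact Subgroup.mem_sup_right h3
      · exact h1.trans (SetLike.coe_subset_coe.2 le_sup_left)

/-- in the subgroup `N` the subgroups which are normalized by `N` are normal -/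
theorem normal_of_ninv {N X : Subgroup G} (hX : NInv N X) : (X.subgroupOf N).Normal := by
  refine ⟨fun a ha u => ?_⟩
  rw [Subgroup.mem_subgroupOf] at ha ⊢
  exact hX u u.2 a ha

theorem relIndex_sup {N X F : Subgroup G} (hX : NInv N X) (hXN : X ≤ N) (hFN : F ≤ N) :
    X.relIndex (F ⊔ X) = X.relIndex F := by
  have := normal_of_ninv hX
  rw [← Subgroup.relIndex_subgroupOf (sup_le hFN hXN), Subgroup.subgroupOf_sup hFN hXN,
    Subgroup.relIndex_sup_right, Subgroup.relIndex_subgroupOf hFN]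

theorem decomp {N X Y : Subgroup G} (hX : NInv N X) (hXN : X ≤ N) (hYN : Y ≤ N) {e : G}
    (he : e ∈ X ⊔ Y) : ∃ a ∈ X, ∃ b ∈ Y, a * b = e := by
  have := normal_of_ninv hX
  have heN : e ∈ N := (sup_le hXN hYN) he
  have h1 : (⟨e, heN⟩ : N) ∈ X.subgroupOf N ⊔ Y.subgroupOf N := by
    rw [← Subgroup.subgroupOf_sup hXN hYN]
    exact he
  rw [mem_sup_normal] at h1
  obtain ⟨a, ha, b, hb, hab⟩ := h1
  exact ⟨a, ha, b, hb, congrArg Subtype.val hab⟩

/-- joins of two locally finite normal subgroups -/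
theorem lf_sup {M N X Y : Subgroup G} (hMX : M ≤ X) (hXN : X ≤ N) (hYN : Y ≤ N)
    (hX : NInv N X) (hXf : LFmod M X) (hYf : LFmod M Y) :
    LFmod M (X ⊔ Y) := by
  intro E hE hEs
  have h0 : ∀ e : G, ∃ a b : G, e ∈ E → a ∈ X ∧ b ∈ Y ∧ a * b = e := by
    intro e
    by_cases he : e ∈ E
    · obtain ⟨a, ha, b, hb, hab⟩ := decomp hX hXN hYN (hEs he)
      exact ⟨a, b, fun _ => ⟨ha, hb, hab⟩⟩
    · exact ⟨1, 1, fun h => absurd h he⟩
  choose al be hab using h0
  set F := Subgroup.closure E with hF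
  set FY := Subgroup.closure (be '' E) with hFY
  have hbeY : be '' E ⊆ Y := by
    rintro _ ⟨e, he, rfl⟩
    exact (hab e he).2.1
  have hFYY : FY ≤ Y := (Subgroup.closure_le _).2 hbeY
  have hFle : F ≤ FY ⊔ X := by
    refine (Subgroup.closure_le _).2 fun e he => ?_
    rw [← (hab e he).2.2]
    exact mul_mem (Subgroup.mem_sup_right (hab e he).1)
      (Subgroup.mem_sup_left (Subgroup.subset_closure ⟨e, he, rfl⟩))
  have h1 : X.relIndex F ≠ 0 := by
    have h2 : X.relIndex FY ≠ 0 := fun h =>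
      hYf _ (hE.image be) hbeY (Subgroup.relIndex_eq_zero_of_le_left hMX h)
    rw [← relIndex_sup hX hXN (hFYY.trans hYN)] at h2
    exact fun h => h2 (Subgroup.relIndex_eq_zero_of_le_right hFle h)
  -- `X ⊓ F` is finitely generated
  have h2 : ∃ E1 : Set G, E1.Finite ∧ Subgroup.closure E1 = X ⊓ F := by
    have hFfg : Group.FG F := (Group.fg_iff_subgroup_fg F).2 ((Subgroup.fg_iff F).2 ⟨E, rfl, hE⟩)
    have hfi : (X.subgroupOf F).FiniteIndex := ⟨h1⟩
    have h3 : Group.FG (X.subgroupOf F) := Subgroup.fg_of_index_ne_zero _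
    have h4 : (X.subgroupOf F).FG := (Group.fg_iff_subgroup_fg _).1 h3
    obtain ⟨E1, hE1, hE1f⟩ := (Subgroup.fg_iff _).1 h4
    refine ⟨F.subtype '' E1, hE1f.image _, ?_⟩
    rw [← MonoidHom.map_closure, hE1, Subgroup.subgroupOf_map_subtype]
  obtain ⟨E1, hE1f, hE1⟩ := h2
  have h3 : M.relIndex (X ⊓ F) ≠ 0 := by
    rw [← hE1]
    refine hXf E1 hE1f ?_
    have : Subgroup.closure E1 ≤ X := by
      rw [hE1]
      exact inf_le_left
    exact Subgroup.subset_closure.trans this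
  have h4 := Subgroup.relIndex_inf_mul_relIndex M X F
  rw [inf_eq_left.2 hMX] at h4
  rw [← h4]
  exact mul_ne_zero h3 h1

theorem lf_cj {M T : Subgroup G} (hM : M.Normal) (hT : LFmod M T) (h : G) : LFmod M (cj h T) := by
  intro E hE hEs
  have h1 : E = (MulAut.conj h).toMonoidHom '' ((fun x => h⁻¹ * x * h) '' E) := by
    rw [Set.image_image]
    have : ∀ x : G, (MulAut.conj h).toMonoidHom (h⁻¹ * x * h) = x := by
      intro x
      show h * (h⁻¹ * x * h) * h⁻¹ = x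
      group
    simp only [this, Set.image_id']
  have h2 := hT ((fun x => h⁻¹ * x * h) '' E) (hE.image _) (by
    rintro _ ⟨x, hx, rfl⟩
    exact mem_cj.1 (hEs hx))
  rw [h1, ← MonoidHom.map_closure, ← Subgroup.relIndex_comap]
  have h3 : M.comap (MulAut.conj h).toMonoidHom = M := by
    ext x
    rw [Subgroup.mem_comap]
    constructor
    · intro hx
      have h4 := hM.conj_mem _ hx h⁻¹
      have e : h⁻¹ * (MulAut.conj h).toMonoidHom x * h⁻¹⁻¹ = x := by
        show h⁻¹ * (h * x * h⁻¹) * h⁻¹⁻¹ = x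
        group
      rwa [e] at h4
    · intro hx
      exact hM.conj_mem x hx h
  rw [h3]
  exact h2

theorem lcs_cj {M T : Subgroup G} (hM : M.Normal) {k : ℕ} (hT : T.lowerCentralSeries k ≤ M)
    (h : G) : (cj h T).lowerCentralSeries k ≤ M := by
  unfold cj
  rw [← Subgroup.map_lowerCentralSeries]
  have h1 : cj h (T.lowerCentralSeries k) ≤ cj h M := cj_mono hT
  rw [cj_normal hM] at h1
  exact h1

theorem lcs_le_iff {M T : Subgroup G} [M.Normal] (k : ℕ) :
    T.lowerCentralSeries k ≤ M ↔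
      (T.map (QuotientGroup.mk' M)).lowerCentralSeries k = ⊥ := by
  rw [← Subgroup.map_lowerCentralSeries, Subgroup.map_eq_bot_iff, QuotientGroup.ker_mk']

end

end JOIN

open JOIN in
theorem t_jl : S_JL := by
  intro G _ M N A hM hN hMA hAN hNA hLF
  obtain ⟨A', h1, h2, h3, h4⟩ := join
    (fun T => M ≤ T ∧ T ≤ N ∧ NInv N T ∧ LFmod M T) N A ⟨hMA, hAN, hNA, hLF⟩
    (fun T hT => hT.2.1)
    (fun X Y hX hY => ⟨hX.1.trans le_sup_left, sup_le hX.2.1 hY.2.1,
      ninv_sup hX.2.2.1 hY.2.2.1, lf_sup hX.1 hX.2.1 hY.2.1 hX.2.2.1 hX.2.2.2 hY.2.2.2⟩)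
    (fun h T hT => ⟨by
        have := cj_mono (h := h) hT.1
        rwa [cj_normal hM] at this, by
        have := cj_mono (h := h) hT.2.1
        rwa [cj_normal hN] at this, ninv_cj hN hT.2.2.1 h, lf_cj hM hT.2.2.2 h⟩)
  refine ⟨A', h1, h2, h3, ?_⟩
  intro E hE hEA
  obtain ⟨T, hT, hET⟩ := h4 E hE hEA
  exact hT.2.2.2 E hE hET

open JOIN in
theorem jn_of_fit : S_FIT → S_JN := by
  intro hFIT G _ M N A hM hN hMA hAN hNA hnil
  obtain ⟨A', h1, h2, h3, h4⟩ := join
    (fun T => M ≤ T ∧ T ≤ N ∧ NInv N T ∧ ∃ k : ℕ, T.lowerCentralSeries k ≤ M) N A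
    ⟨hMA, hAN, hNA, hnil⟩ (fun T hT => hT.2.1)
    (fun X Y hX hY => ⟨hX.1.trans le_sup_left, sup_le hX.2.1 hY.2.1,
      ninv_sup hX.2.2.1 hY.2.2.1, by
        obtain ⟨-, hXN, hXi, k, hk⟩ := hX
        obtain ⟨-, hYN, hYi, l, hl⟩ := hY
        refine ⟨k + l, ?_⟩
        rw [lcs_le_iff] at hk hl ⊢
        rw [Subgroup.map_sup]
        refine hFIT _ _ _ k l ?_ ?_ hk hl
        · rintro _ ⟨u, hu, rfl⟩ _ ⟨a, ha, rfl⟩
          exact ⟨u * a * u⁻¹, hXi u (hYN hu) a ha, by simp⟩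
        · rintro _ ⟨u, hu, rfl⟩ _ ⟨a, ha, rfl⟩
          exact ⟨u * a * u⁻¹, hYi u (hXN hu) a ha, by simp⟩⟩)
    (fun h T hT => ⟨by
        have := cj_mono (h := h) hT.1
        rwa [cj_normal hM] at this, by
        have := cj_mono (h := h) hT.2.1
        rwa [cj_normal hN] at this, ninv_cj hN hT.2.2.1 h, by
        obtain ⟨k, hk⟩ := hT.2.2.2
        exact ⟨k, lcs_cj hM hk h⟩⟩)
  refine ⟨A', h1, h2, h3, ?_⟩
  intro x hx
  obtain ⟨T, ⟨hMT, hTN, hTi, k, hk⟩, hxT⟩ := h4 {x} (Set.finite_singleton x)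
    (Set.singleton_subset_iff.2 hx)
  refine ⟨k, le_trans ?_ hk⟩
  apply Subgroup.lowerCentralSeries_mono k
  unfold nc
  rw [Subgroup.closure_le]
  rintro _ ⟨u, hu, rfl⟩
  exact hTi u (h3 hu) x (hxT (Set.mem_singleton x))

end Pool.Agent.N508.HF
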