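import Pool.Agent.N508.HF.Stm

/-!
# The key: an element does not lie in the commutator subgroup of its normal closure (helper97)
-/

set_option autoImplicit false

namespace Pool.Agent.N508.HF

namespace Key

open scoped commutatorElement

variable {G : Type} [Group G]

/-- the conjugate of `X` by `g ^ i` -/
def cj (g : G) (i : ℤ) (X : Subgroup G) : Subgroup G := X.map (MulAut.conj (g ^ i)).toMonoidHom

lemma mem_cj {g : G} {i : ℤ} {X : Subgroup G} {y : G} :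
    y ∈ cj g i X ↔ g ^ (-i) * y * g ^ i ∈ X := by
  unfold cj
  rw [Subgroup.mem_map]
  constructor
  · rintro ⟨x, hx, rfl⟩
    have e : g ^ (-i) * (MulAut.conj (g ^ i)).toMonoidHom x * g ^ i = x := by
      simp only [MulEquiv.toMonoidHom_eq_coe, MonoidHom.coe_coe, MulAut.conj_apply]
      group
    rw [e]
    exact hx
  · intro h
    refine ⟨_, h, ?_⟩
    simp only [MulEquiv.toMonoidHom_eq_coe, MonoidHom.coe_coe, MulAut.conj_apply]
    group

lemma cj_zero (g : G) (X : Subgroup G) : cj g 0 X = X := by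
  ext y
  rw [mem_cj]
  simp

lemma cj_cj (g : G) (i j : ℤ) (X : Subgroup G) : cj g i (cj g j X) = cj g (i + j) X := by
  ext y
  rw [mem_cj, mem_cj, mem_cj]
  have e : g ^ (-j) * (g ^ (-i) * y * g ^ i) * g ^ j = g ^ (-(i + j)) * y * g ^ (i + j) := by
    group
  rw [e]

lemma cj_mono (g : G) (i : ℤ) {X Y : Subgroup G} (h : X ≤ Y) : cj g i X ≤ cj g i Y :=
  Subgroup.map_mono h

lemma cj_comm (g : G) (i : ℤ) (X Y : Subgroup G) : ⁅cj g i X, cj g i Y⁆ = cj g i ⁅X, Y⁆ :=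
  (Subgroup.map_commutator _ _ _).symm

lemma cj_lcs (g : G) (i : ℤ) (X : Subgroup G) (n : ℕ) :
    (cj g i X).lowerCentralSeries n = cj g i (X.lowerCentralSeries n) :=
  (Subgroup.map_lowerCentralSeries X _ n).symm

lemma cj_bot (g : G) (i : ℤ) : cj g i (⊥ : Subgroup G) = ⊥ := Subgroup.map_bot _

/-! ### invariance -/

lemma ninv_iff {N A : Subgroup G} :
    NInv N A ↔ ∀ u ∈ N, A.map (MulAut.conj u).toMonoidHom ≤ A := by
  constructor
  · intro h u hu
    rw [Subgroup.map_le_iff_le_comap]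
    intro a ha
    exact h u hu a ha
  · intro h u hu a ha
    exact h u hu (Subgroup.mem_map_of_mem _ ha)

lemma NInv.mono {N N' A : Subgroup G} (h : NInv N A) (hN : N' ≤ N) : NInv N' A :=
  fun u hu a ha => h u (hN hu) a ha

lemma ninv_comm {N A B : Subgroup G} (hA : NInv N A) (hB : NInv N B) : NInv N ⁅A, B⁆ := by
  rw [ninv_iff] at hA hB ⊢
  intro u hu
  rw [Subgroup.map_commutator]
  exact Subgroup.commutator_mono (hA u hu) (hB u hu)

lemma ninv_iSup {ι : Sort*} {N : Subgroup G} {A : ι → Subgroup G} (h : ∀ i, NInv N (A i)) :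
    NInv N (⨆ i, A i) := by
  rw [ninv_iff]
  intro u hu
  rw [Subgroup.map_iSup]
  exact iSup_mono fun i => (ninv_iff.mp (h i)) u hu

lemma ninv_cj {N A : Subgroup G} (hN : N.Normal) (g : G) (i : ℤ) (h : NInv N A) :
    NInv N (cj g i A) := by
  intro u hu a ha
  rw [mem_cj] at ha ⊢
  have hu' : g ^ (-i) * u * g ^ i ∈ N := by
    have := hN.conj_mem u hu (g ^ (-i))
    have e : g ^ (-i) * u * (g ^ (-i))⁻¹ = g ^ (-i) * u * g ^ i := by group
    rwa [e] at this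
  have h1 := h _ hu' _ ha
  have e : g ^ (-i) * u * g ^ i * (g ^ (-i) * a * g ^ i) * (g ^ (-i) * u * g ^ i)⁻¹ =
      g ^ (-i) * (u * a * u⁻¹) * g ^ i := by group
  rwa [e] at h1

lemma cj_le {N A : Subgroup G} (hN : N.Normal) (g : G) (i : ℤ) (h : A ≤ N) : cj g i A ≤ N := by
  intro y hy
  rw [mem_cj] at hy
  have := hN.conj_mem _ (h hy) (g ^ i)
  have e : g ^ i * (g ^ (-i) * y * g ^ i) * (g ^ i)⁻¹ = y := by group
  rwa [e] at this

lemma ninv_nc (N : Subgroup G) (z : G) : NInv N (nc N z) := by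
  rw [ninv_iff]
  intro u hu
  unfold nc
  rw [MonoidHom.map_closure]
  apply Subgroup.closure_mono
  rintro _ ⟨_, ⟨v, hv, rfl⟩, rfl⟩
  refine ⟨u * v, N.mul_mem hu hv, ?_⟩
  simp only [MulEquiv.toMonoidHom_eq_coe, MonoidHom.coe_coe, MulAut.conj_apply]
  group

lemma nc_le {N A : Subgroup G} {z : G} (hA : NInv N A) (hz : z ∈ A) : nc N z ≤ A := by
  unfold nc
  rw [Subgroup.closure_le]
  rintro _ ⟨u, hu, rfl⟩
  exact hA u hu z hz

lemma mem_nc (N : Subgroup G) (z : G) : z ∈ nc N z :=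
  Subgroup.subset_closure ⟨1, N.one_mem, by group⟩

lemma ninv_self (N : Subgroup G) : NInv N N := fun _ hu _ ha =>
  N.mul_mem (N.mul_mem hu ha) (N.inv_mem hu)

/-! ### the operation -/

/-- the symmetric interval -/
noncomputable def Iw (w : ℕ) : Finset ℤ := Finset.Icc (-(w : ℤ)) w

/-- the join of the commutator subgroups -/
def FF (g : G) (w : ℕ) (X : Subgroup G) : Subgroup G :=
  ⨆ i ∈ Iw w, ⨆ j ∈ Iw w, ⁅cj g i X, cj g j X⁆

lemma le_FF (g : G) {w : ℕ} (X : Subgroup G) {i j : ℤ} (hi : i ∈ Iw w) (hj : j ∈ Iw w) :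
    ⁅cj g i X, cj g j X⁆ ≤ FF g w X :=
  le_iSup₂_of_le i hi (le_iSup₂_of_le j hj le_rfl)

lemma FF_le {g : G} {w : ℕ} {X Y : Subgroup G}
    (h : ∀ i ∈ Iw w, ∀ j ∈ Iw w, ⁅cj g i X, cj g j X⁆ ≤ Y) : FF g w X ≤ Y :=
  iSup₂_le fun i hi => iSup₂_le fun j hj => h i hi j hj

lemma FF_mono (g : G) (w : ℕ) {X Y : Subgroup G} (h : X ≤ Y) : FF g w X ≤ FF g w Y :=
  FF_le fun _ hi _ hj => (Subgroup.commutator_mono (cj_mono g _ h) (cj_mono g _ h)).trans
    (le_FF g Y hi hj)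

lemma FF_mono_w (g : G) {w w' : ℕ} (h : w ≤ w') (X : Subgroup G) : FF g w X ≤ FF g w' X := by
  refine FF_le fun i hi j hj => le_FF g X ?_ ?_
  · unfold Iw at hi ⊢
    rw [Finset.mem_Icc] at hi ⊢
    omega
  · unfold Iw at hj ⊢
    rw [Finset.mem_Icc] at hj ⊢
    omega

lemma ninv_FF {N X : Subgroup G} (hN : N.Normal) (g : G) (w : ℕ) (h : NInv N X) :
    NInv N (FF g w X) := by
  unfold FF
  exact ninv_iSup fun i => ninv_iSup fun _ => ninv_iSup fun j => ninv_iSup fun _ =>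
    ninv_comm (ninv_cj hN g i h) (ninv_cj hN g j h)

/-- the iterates -/
def P (g : G) (w : ℕ) (Z : Subgroup G) : ℕ → Subgroup G
  | 0 => Z
  | d + 1 => FF g w (P g w Z d)

/-- the bounding groups -/
def R (g : G) (w : ℕ) (Z : Subgroup G) (d : ℕ) : Subgroup G := ⨆ i ∈ Iw (d * w), cj g i Z

lemma le_R (g : G) {w : ℕ} (Z : Subgroup G) {d : ℕ} {i : ℤ} (hi : i ∈ Iw (d * w)) :
    cj g i Z ≤ R g w Z d := le_iSup₂_of_le i hi le_rfl

lemma cj_R (g : G) {w : ℕ} (Z : Subgroup G) (d : ℕ) {i : ℤ} (hi : i ∈ Iw w) :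
    cj g i (R g w Z d) ≤ R g w Z (d + 1) := by
  unfold R
  unfold cj
  rw [Subgroup.map_iSup]
  refine iSup_le fun j => ?_
  rw [Subgroup.map_iSup]
  refine iSup_le fun hj => ?_
  have e : Subgroup.map (MulAut.conj (g ^ i)).toMonoidHom
      (Subgroup.map (MulAut.conj (g ^ j)).toMonoidHom Z) = cj g (i + j) Z := cj_cj g i j Z
  rw [e]
  refine le_R g Z ?_
  unfold Iw at hi hj ⊢
  rw [Finset.mem_Icc] at hi hj ⊢
  push_cast at hi hj ⊢
  have h1 : ((d : ℤ) + 1) * w = d * w + w := by ring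
  rw [h1]
  omega

lemma R_mono (g : G) {w : ℕ} (Z : Subgroup G) (d : ℕ) : R g w Z d ≤ R g w Z (d + 1) := by
  have h : (0 : ℤ) ∈ Iw w := by
    unfold Iw
    rw [Finset.mem_Icc]
    omega
  have := cj_R g Z d h
  rwa [cj_zero] at this

lemma ninv_R {N Z : Subgroup G} (hN : N.Normal) (g : G) (w d : ℕ) (h : NInv N Z) :
    NInv N (R g w Z d) := by
  unfold R
  exact ninv_iSup fun i => ninv_iSup fun _ => ninv_cj hN g i h

lemma R_le {N Z : Subgroup G} (hN : N.Normal) (g : G) (w d : ℕ) (h : Z ≤ N) :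
    R g w Z d ≤ N := iSup₂_le fun i _ => cj_le hN g i h

lemma ninv_P {N Z : Subgroup G} (hN : N.Normal) (g : G) (w : ℕ) (h : NInv N Z) (d : ℕ) :
    NInv N (P g w Z d) := by
  induction d with
  | zero => exact h
  | succ d ih => exact ninv_FF hN g w ih

/-- (A) -/
lemma P_le (hL : S_LCS) (g : G) (w : ℕ) (Z : Subgroup G) (d : ℕ) :
    P g w Z d ≤ (R g w Z d).lowerCentralSeries (2 ^ d - 1) := by
  induction d with
  | zero =>
    show Z ≤ _
    rw [pow_zero, Nat.sub_self, Subgroup.lowerCentralSeries_zero]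
    have h : (0 : ℤ) ∈ Iw (0 * w) := by
      unfold Iw
      rw [Finset.mem_Icc]
      omega
    have := le_R g (w := w) Z h
    rwa [cj_zero] at this
  | succ d ih =>
    refine FF_le fun i hi j hj => ?_
    have key : ∀ i ∈ Iw w, cj g i (P g w Z d) ≤
        (R g w Z (d + 1)).lowerCentralSeries (2 ^ d - 1) := by
      intro i hi
      refine (cj_mono g i ih).trans ?_
      rw [← cj_lcs]
      exact Subgroup.lowerCentralSeries_mono _ (cj_R g Z d hi)
    refine (Subgroup.commutator_mono (key i hi) (key j hj)).trans ?_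
    refine (hL G _ _ _).trans ?_
    have e : 2 ^ d - 1 + (2 ^ d - 1) + 1 = 2 ^ (d + 1) - 1 := by
      have : 1 ≤ 2 ^ d := Nat.one_le_two_pow
      rw [pow_succ]
      omega
    rw [e]

lemma P_le_R (hL : S_LCS) (g : G) (w : ℕ) (Z : Subgroup G) (d : ℕ) : P g w Z d ≤ R g w Z d :=
  (P_le hL g w Z d).trans (Subgroup.lowerCentralSeries_le_self _ _)

/-- (B) -/
lemma sup_nil (hF : S_FIT) {N Z : Subgroup G} (hN : N.Normal) (g : G) (hZN : Z ≤ N)
    (hZ : NInv N Z) {c : ℕ} (hc : Z.lowerCentralSeries c = ⊥) (s : Finset ℤ) :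
    (⨆ i ∈ s, cj g i Z).lowerCentralSeries (c * s.card) = ⊥ := by
  classical
  induction s using Finset.induction_on with
  | empty => simp
  | insert a s ha ih =>
    rw [Finset.iSup_insert, Finset.card_insert_of_notMem ha]
    have e : c * (s.card + 1) = c + c * s.card := by ring
    rw [e]
    have h1 : NInv N (⨆ i ∈ s, cj g i Z) :=
      ninv_iSup fun i => ninv_iSup fun _ => ninv_cj hN g i hZ
    have h2 : (⨆ i ∈ s, cj g i Z) ≤ N := iSup₂_le fun i _ => cj_le hN g i hZN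
    refine hF G _ _ _ _ (NInv.mono (ninv_cj hN g a hZ) h2)
      (NInv.mono h1 (cj_le hN g a hZN)) ?_ ih
    rw [cj_lcs, hc, cj_bot]

lemma exists_d (c w : ℕ) : ∃ d : ℕ, c * (2 * (d * w) + 1) ≤ 2 ^ d - 1 := by
  set m := 4 * c * w + c + 1 with hm
  refine ⟨2 * m, ?_⟩
  have h1 : m + 1 ≤ 2 ^ m := Nat.lt_two_pow_self
  have h2 : (m + 1) * (m + 1) ≤ 2 ^ (2 * m) := by
    rw [two_mul, pow_add]
    exact Nat.mul_le_mul h1 h1
  have h3 : c * (2 * (2 * m * w) + 1) + 1 ≤ (m + 1) * (m + 1) := by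
    have e : c * (2 * (2 * m * w) + 1) + 1 = (4 * c * w) * m + c + 1 := by ring
    rw [e]
    have h4 : (4 * c * w) * m ≤ m * m := Nat.mul_le_mul_right m (by omega)
    have h5 : (m + 1) * (m + 1) = m * m + 2 * m + 1 := by ring
    omega
  omega

lemma card_Iw (m : ℕ) : (Iw m).card = 2 * m + 1 := by
  unfold Iw
  rw [Int.card_Icc]
  omega

/-- (C) -/
lemma P_bot (hF : S_FIT) (hL : S_LCS) {N Z : Subgroup G} (hN : N.Normal) (g : G) (w : ℕ)
    (hZN : Z ≤ N) (hZ : NInv N Z) {c : ℕ} (hc : Z.lowerCentralSeries c = ⊥) :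
    ∃ d, P g w Z d = ⊥ := by
  obtain ⟨d, hd⟩ := exists_d c w
  refine ⟨d, ?_⟩
  rw [eq_bot_iff]
  refine (P_le hL g w Z d).trans ?_
  refine (Subgroup.lowerCentralSeries_antitone _ hd).trans ?_
  have := sup_nil hF hN g hZN hZ hc (Iw (d * w))
  rw [card_Iw] at this
  exact this.le

lemma R_nil (hF : S_FIT) {N Z : Subgroup G} (hN : N.Normal) (g : G) (w : ℕ)
    (hZN : Z ≤ N) (hZ : NInv N Z) {c : ℕ} (hc : Z.lowerCentralSeries c = ⊥) (d : ℕ) :
    ∃ c', (R g w Z d).lowerCentralSeries c' = ⊥ :=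
  ⟨_, sup_nil hF hN g hZN hZ hc (Iw (d * w))⟩

/-! ### the normal closure -/

lemma comm_ext {N D : Subgroup G} (hD : NInv N D) {ι : Type} {X : ι → Subgroup G}
    (hX : ∀ i, X i ≤ N) {b : G} (h : ∀ i, ∀ a ∈ X i, ⁅a, b⁆ ∈ D) {a : G}
    (ha : a ∈ ⨆ i, X i) : ⁅a, b⁆ ∈ D := by
  have key : a ∈ N ∧ ⁅a, b⁆ ∈ D := by
    refine Subgroup.iSup_induction X (C := fun a => a ∈ N ∧ ⁅a, b⁆ ∈ D) ha ?_ ?_ ?_
    · intro i x hx
      exact ⟨hX i hx, h i x hx⟩
    · refine ⟨N.one_mem, ?_⟩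
      rw [commutatorElement_one_left]
      exact D.one_mem
    · rintro x y ⟨hx1, hx2⟩ ⟨hy1, hy2⟩
      refine ⟨N.mul_mem hx1 hy1, ?_⟩
      have e : ⁅x * y, b⁆ = x * ⁅y, b⁆ * x⁻¹ * ⁅x, b⁆ := by
        simp only [commutatorElement_def]
        group
      rw [e]
      exact D.mul_mem (hD x hx1 _ hy2) hx2
  exact key.2

lemma normal_sup {N Z : Subgroup G} (hN : N.Normal) (g : G)
    (hg : N ⊔ Subgroup.zpowers g = ⊤) (hZ : NInv N Z) : (⨆ i : ℤ, cj g i Z).Normal := by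
  refine ⟨fun a ha x => ?_⟩
  have hx : x ∈ N ⊔ Subgroup.zpowers g := by rw [hg]; exact Subgroup.mem_top x
  obtain ⟨u, hu, v, hv, rfl⟩ := Subgroup.mem_sup_of_normal_left.mp hx
  obtain ⟨k, rfl⟩ := Subgroup.mem_zpowers_iff.mp hv
  have h1 : g ^ k * a * (g ^ k)⁻¹ ∈ ⨆ i : ℤ, cj g i Z := by
    have h2 : cj g k (⨆ i : ℤ, cj g i Z) ≤ ⨆ i : ℤ, cj g i Z := by
      unfold cj
      rw [Subgroup.map_iSup]
      refine iSup_le fun j => ?_
      have e : Subgroup.map (MulAut.conj (g ^ k)).toMonoidHom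
          (Subgroup.map (MulAut.conj (g ^ j)).toMonoidHom Z) = cj g (k + j) Z := cj_cj g k j Z
      rw [e]
      exact le_iSup (fun i => cj g i Z) (k + j)
    apply h2
    rw [mem_cj]
    have e : g ^ (-k) * (g ^ k * a * (g ^ k)⁻¹) * g ^ k = a := by group
    rw [e]
    exact ha
  have h3 : NInv N (⨆ i : ℤ, cj g i Z) := ninv_iSup fun i => ninv_cj hN g i hZ
  have h4 := h3 u hu _ h1
  have e : u * (g ^ k * a * (g ^ k)⁻¹) * u⁻¹ = u * g ^ k * a * (u * g ^ k)⁻¹ := by group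
  rwa [e] at h4

lemma mem_some {N Z : Subgroup G} (hN : N.Normal) (g : G)
    (hg : N ⊔ Subgroup.zpowers g = ⊤) (hZN : Z ≤ N) (hZ : NInv N Z) {z x : G} (hz : z ∈ Z)
    (hx : x ∈ ⁅Subgroup.normalClosure {z}, Subgroup.normalClosure {z}⁆) :
    ∃ w : ℕ, x ∈ FF g w Z := by
  set S : Subgroup G := ⨆ i : ℤ, cj g i Z with hS
  have hSn : S.Normal := normal_sup hN g hg hZ
  have h1 : Subgroup.normalClosure {z} ≤ S := by
    apply Subgroup.normalClosure_le_normal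
    rw [Set.singleton_subset_iff]
    have : cj g 0 Z ≤ S := le_iSup (fun i => cj g i Z) 0
    rw [cj_zero] at this
    exact this hz
  set D : Subgroup G := ⨆ p : ℤ × ℤ, ⁅cj g p.1 Z, cj g p.2 Z⁆ with hD
  have hDN : NInv N D := ninv_iSup fun p => ninv_comm (ninv_cj hN g _ hZ) (ninv_cj hN g _ hZ)
  have hSN : S ≤ N := iSup_le fun i => cj_le hN g i hZN
  have h2 : ⁅S, S⁆ ≤ D := by
    rw [Subgroup.commutator_le]
    intro a ha b hb
    refine comm_ext hDN (fun i => cj_le hN g i hZN) (fun i a' ha' => ?_) ha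
    have h3 : ⁅b, a'⁆ ∈ D := by
      refine comm_ext hDN (fun i => cj_le hN g i hZN) (fun j b' hb' => ?_) hb
      exact (le_iSup (fun p : ℤ × ℤ => ⁅cj g p.1 Z, cj g p.2 Z⁆) (j, i))
        (Subgroup.commutator_mem_commutator hb' ha')
    rw [← commutatorElement_inv]
    exact D.inv_mem h3
  have h4 : x ∈ D := h2 ((Subgroup.commutator_mono h1 h1) hx)
  refine Subgroup.iSup_induction (fun p : ℤ × ℤ => ⁅cj g p.1 Z, cj g p.2 Z⁆)
    (C := fun x => ∃ w : ℕ, x ∈ FF g w Z) h4 ?_ ?_ ?_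
  · rintro ⟨i, j⟩ y hy
    refine ⟨max i.natAbs j.natAbs, (le_FF g Z ?_ ?_) hy⟩
    · unfold Iw
      rw [Finset.mem_Icc]
      omega
    · unfold Iw
      rw [Finset.mem_Icc]
      omega
  · exact ⟨0, Subgroup.one_mem _⟩
  · rintro a b ⟨w, hw⟩ ⟨w', hw'⟩
    exact ⟨max w w', Subgroup.mul_mem _ (FF_mono_w g (le_max_left _ _) Z hw)
      (FF_mono_w g (le_max_right _ _) Z hw')⟩

/-! ### isolators -/

/-- every element of `A` has a positive power in `B` -/
def Sq (A B : Subgroup G) : Prop := ∀ x ∈ A, ∃ n : ℕ, 0 < n ∧ x ^ n ∈ B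

lemma Sq.cj {A B : Subgroup G} (h : Sq A B) (g : G) (i : ℤ) : Sq (cj g i A) (cj g i B) := by
  intro x hx
  rw [mem_cj] at hx
  obtain ⟨n, hn, hxn⟩ := h _ hx
  refine ⟨n, hn, ?_⟩
  rw [mem_cj]
  have e : (g ^ (-i) * x * g ^ i) ^ n = g ^ (-i) * x ^ n * g ^ i := by
    have : g ^ i = (g ^ (-i))⁻¹ := by group
    rw [this, conj_pow]
  rwa [e] at hxn

lemma Sq.trans {A B C : Subgroup G} (h : Sq A B) (h' : Sq B C) : Sq A C := by
  intro x hx
  obtain ⟨n, hn, hxn⟩ := h x hx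
  obtain ⟨m, hm, hxm⟩ := h' _ hxn
  exact ⟨n * m, Nat.mul_pos hn hm, by rwa [pow_mul]⟩

lemma Sq_succ (hF : S_FIT) (hL : S_LCS) (hU : S_SUPI) (hI : S_ISO) {N Z : Subgroup G}
    (hN : N.Normal) (g : G) (w : ℕ) (hZN : Z ≤ N) (hZ : NInv N Z) {c : ℕ}
    (hc : Z.lowerCentralSeries c = ⊥) (h0 : Sq Z (P g w Z 1)) (d : ℕ) :
    Sq (P g w Z d) (P g w Z (d + 1)) := by
  induction d with
  | zero => exact h0
  | succ d ih =>
    obtain ⟨c', hc'⟩ := R_nil hF hN g w hZN hZ hc (d + 2)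
    have hRN : R g w Z (d + 2) ≤ N := R_le hN g w _ hZN
    have hle1 : ∀ i ∈ Iw w, cj g i (P g w Z d) ≤ R g w Z (d + 2) := fun i hi =>
      (cj_mono g i (P_le_R hL g w Z d)).trans ((cj_R g Z d hi).trans (R_mono g Z (d + 1)))
    have hle2 : ∀ i ∈ Iw w, cj g i (P g w Z (d + 1)) ≤ R g w Z (d + 2) := fun i hi =>
      (cj_mono g i (P_le_R hL g w Z (d + 1))).trans (cj_R g Z (d + 1) hi)
    have hn1 : ∀ i, NInv (R g w Z (d + 2)) (cj g i (P g w Z d)) := fun i =>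
      NInv.mono (ninv_cj hN g i (ninv_P hN g w hZ d)) hRN
    have hn2 : ∀ i, NInv (R g w Z (d + 2)) (cj g i (P g w Z (d + 1))) := fun i =>
      NInv.mono (ninv_cj hN g i (ninv_P hN g w hZ (d + 1))) hRN
    have hcomm : ∀ i ∈ Iw w, ∀ j ∈ Iw w, Sq ⁅cj g i (P g w Z d), cj g j (P g w Z d)⁆
        ⁅cj g i (P g w Z (d + 1)), cj g j (P g w Z (d + 1))⁆ := fun i hi j hj =>
      hI G _ c' hc' _ _ _ _ (hle1 i hi) (hle2 i hi) (hle1 j hj) (hle2 j hj) (hn1 i) (hn2 i)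
        (hn1 j) (hn2 j) (ih.cj g i) (ih.cj g j)
    set X : Set G := {x | ∃ i ∈ Iw w, ∃ j ∈ Iw w, x ∈ ⁅cj g i (P g w Z d), cj g j (P g w Z d)⁆}
      with hX
    have hXR : X ⊆ R g w Z (d + 2) := by
      rintro x ⟨i, hi, j, hj, hx⟩
      have h1 : ⁅cj g i (P g w Z d), cj g j (P g w Z d)⁆ ≤ R g w Z (d + 2) := by
        rw [Subgroup.commutator_le]
        intro a ha b hb
        have ha' := hle1 i hi ha
        have hb' := hle1 j hj hb
        rw [commutatorElement_def]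
        exact Subgroup.mul_mem _ (Subgroup.mul_mem _ (Subgroup.mul_mem _ ha' hb')
          (Subgroup.inv_mem _ ha')) (Subgroup.inv_mem _ hb')
      exact h1 hx
    have hcl : P g w Z (d + 1) ≤ Subgroup.closure X :=
      FF_le fun i hi j hj x hx => Subgroup.subset_closure ⟨i, hi, j, hj, hx⟩
    intro x hx
    refine hU G (R g w Z (d + 2)) c' hc' (P g w Z (d + 2)) (P_le_R hL g w Z (d + 2))
      (NInv.mono (ninv_P hN g w hZ (d + 2)) hRN) X hXR ?_ x (hcl hx)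
    rintro y ⟨i, hi, j, hj, hy⟩
    obtain ⟨n, hn, hyn⟩ := hcomm i hi j hj y hy
    exact ⟨n, hn, le_FF g _ hi hj hyn⟩

end Key

open Key in
theorem key : S_FIT → S_LCS → S_SUPI → S_ISO → S_KEY := by
  intro hF hL hU hI G _ N g hN hg hFit z hz hz1 n hn hzn hcase
  obtain ⟨c, hc⟩ := hFit z hz
  set Z := nc N z with hZdef
  have hZN : Z ≤ N := nc_le (ninv_self N) hz
  have hZ : NInv N Z := ninv_nc N z
  have hzZ : z ∈ Z := mem_nc N z
  obtain ⟨w, hw⟩ := mem_some hN g hg hZN hZ hzZ hzn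
  obtain ⟨d, hd⟩ := P_bot hF hL hN g w hZN hZ hc
  rcases hcase with rfl | hinf
  · rw [pow_one] at hw
    have h1 : Z ≤ P g w Z 1 := nc_le (ninv_P hN g w hZ 1) hw
    have h2 : ∀ d, P g w Z d ≤ P g w Z (d + 1) := by
      intro d
      induction d with
      | zero => exact h1
      | succ d ih => exact FF_mono g w ih
    have h3 : ∀ d, Z ≤ P g w Z d := by
      intro d
      induction d with
      | zero => exact le_rfl
      | succ d ih => exact ih.trans (h2 d)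
    have h4 := h3 d hzZ
    rw [hd, Subgroup.mem_bot] at h4
    exact hz1 h4
  · have h0 : Sq Z (P g w Z 1) := by
      obtain ⟨c', hc'⟩ := R_nil hF hN g w hZN hZ hc 1
      have hRN : R g w Z 1 ≤ N := R_le hN g w _ hZN
      have hZR : Z ≤ R g w Z 1 := by
        have h : (0 : ℤ) ∈ Iw (1 * w) := by
          unfold Iw
          rw [Finset.mem_Icc]
          omega
        have := le_R g (w := w) Z h
        rwa [cj_zero] at this
      intro x hx
      refine hU G (R g w Z 1) c' hc' (P g w Z 1) (P_le_R hL g w Z 1)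
        (NInv.mono (ninv_P hN g w hZ 1) hRN) {y | ∃ u ∈ N, y = u * z * u⁻¹} ?_ ?_ x hx
      · exact fun y hy => hZR (Subgroup.subset_closure hy)
      · rintro _ ⟨u, hu, rfl⟩
        refine ⟨n, hn, ?_⟩
        rw [conj_pow]
        exact ninv_P hN g w hZ 1 u hu _ hw
    have h1 : ∀ d, Sq Z (P g w Z d) := by
      intro d
      induction d with
      | zero => exact fun x hx => ⟨1, one_pos, by rwa [pow_one]⟩
      | succ d ih => exact ih.trans (Sq_succ hF hL hU hI hN g w hZN hZ hc h0 d)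
    obtain ⟨k, hk, hzk⟩ := h1 d z hzZ
    rw [hd, Subgroup.mem_bot] at hzk
    exact hinf k hk hzk

end Pool.Agent.N508.HF
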