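import Pool.Agent.N508.HF.Stm

/-!
# Hyper-(nilpotent or locally finite) kernels: assembly (helper508)
-/

set_option autoImplicit false

namespace Pool.Agent.N508.HF

open Pool.Agent.Y110.FJ
open Pool.Agent.R941.FJ (hyper factor_lf factor_ab mem_sup_normal C_cyc C_equiv)

variable {C : ∀ (G : Type) [Group G], Prop}

/-- a group with a normal subgroup with cyclic quotient generated by `g` -/
theorem cyc_quot (hC : ClosedE C) {G : Type} [Group G] (N : Subgroup G) [N.Normal] (g : G)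
    (h : N ⊔ Subgroup.zpowers g = ⊤) : C (G ⧸ N) := by
  have h1 : Subgroup.zpowers (QuotientGroup.mk g : G ⧸ N) = ⊤ := by
    rw [Subgroup.eq_top_iff']
    intro x
    obtain ⟨y, rfl⟩ := QuotientGroup.mk_surjective x
    have hy : y ∈ N ⊔ Subgroup.zpowers g := by rw [h]; trivial
    obtain ⟨a, ha, b, hb, hab⟩ := mem_sup_normal.1 hy
    obtain ⟨k, rfl⟩ := Subgroup.mem_zpowers_iff.1 hb
    rw [Subgroup.mem_zpowers_iff]
    refine ⟨k, ?_⟩
    rw [← hab, QuotientGroup.mk_mul, (QuotientGroup.eq_one_iff a).2 ha, one_mul]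
    rfl
  refine C_equiv hC.base Subgroup.topEquiv.symm ?_
  rw [← h1]
  exact C_cyc hC.base _

/-- a series with abelian or unseen factors is admissible -/
theorem ch_adm (hC : ClosedE C) (hmet : HasMet C) {G : Type} [Group G] (M : Subgroup G) (n : ℕ)
    (J : ℕ → Subgroup G) (h : Ch Ab M n J) : Ch (Adm C) M n J where
  bot := h.bot
  nor := h.nor
  mono := h.mono
  fac := fun i hi => by
    rcases h.fac i hi with h1 | h1
    · left
      have h2 := h.nor i
      have h3 := h.nor (i + 1)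
      exact ⟨h2, fun x => factor_ab hC hmet (J i) (J (i + 1)) h1 x⟩
    · exact Or.inr h1

/-- kernels all of whose elements have nilpotent normal closures, cyclic quotient -/
theorem fit_cyc (hreal : S_REAL) (hch : S_CH) (hC : ClosedE C) (hmet : HasMet C)
    {G : Type} [Group G] (N : Subgroup G) [hN : N.Normal] (g : G)
    (h : N ⊔ Subgroup.zpowers g = ⊤) (hf : Fit N) : C G := by
  refine Pool.Agent.R779.FJ.t_crit Pool.Agent.Y529.FJ.t_ext
    (Pool.Agent.Y961.FJ.t_perm Pool.Agent.Y529.FJ.t_ext) C hC G N (cyc_quot hC N g h)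
    fun x E hE hEN => ?_
  have himg : (fun y => x * y * x⁻¹) '' E ⊆ N := by
    rintro _ ⟨y, hy, rfl⟩
    exact hN.conj_mem y (hEN hy) x
  have hM : Subgroup.closure (E ∪ (fun y => x * y * x⁻¹) '' E) ≤ N :=
    (Subgroup.closure_le _).2 (Set.union_subset hEN himg)
  have hfg : (Subgroup.closure (E ∪ (fun y => x * y * x⁻¹) '' E)).FG :=
    (Subgroup.fg_iff _).2 ⟨_, rfl, hE.union (hE.image _)⟩
  obtain ⟨n, J, hJ, hn⟩ := hch G N g hN h hf _ hM hfg
  exact hreal C hC G x E hE n J (ch_adm hC hmet _ n J hJ) (by rw [hn]; exact hEN)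

theorem map_conj_set {G H : Type} [Group G] [Group H] (f : G →* H) (N : Subgroup G) (x : G) :
    (nc N x).map f = nc (N.map f) (f x) := by
  unfold nc
  rw [MonoidHom.map_closure]
  congr 1
  ext y
  constructor
  · rintro ⟨_, ⟨u, hu, rfl⟩, rfl⟩
    exact ⟨f u, ⟨u, hu, rfl⟩, by simp⟩
  · rintro ⟨_, ⟨u, hu, rfl⟩, rfl⟩
    exact ⟨u * x * u⁻¹, ⟨u, hu, rfl⟩, by simp⟩

/-- passing to a subgroup containing `N` -/
theorem nc_subgroupOf {G : Type} [Group G] (N H : Subgroup G) (hle : N ≤ H) (x : H) (c : ℕ)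
    (h : (nc N (x : G)).lowerCentralSeries c = ⊥) :
    (nc (N.subgroupOf H) x).lowerCentralSeries c = ⊥ := by
  have h1 : (nc (N.subgroupOf H) x).map H.subtype = nc N (x : G) := by
    rw [map_conj_set, Subgroup.subgroupOf_map_subtype, inf_eq_left.2 hle]
    rfl
  have h2 : ((nc (N.subgroupOf H) x).lowerCentralSeries c).map H.subtype = ⊥ := by
    rw [Subgroup.map_lowerCentralSeries, h1, h]
  exact (Subgroup.map_eq_bot_iff_of_injective _ H.subtype_injective).1 h2

/-- a factor all of whose elements have nilpotent normal closures is admissible -/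
theorem factor_fit (hreal : S_REAL) (hch : S_CH) (hC : ClosedE C) (hmet : HasMet C)
    {G : Type} [Group G] (M A : Subgroup G) [M.Normal] [A.Normal]
    (hf : ∀ x ∈ A, ∃ k : ℕ, (nc A x).lowerCentralSeries k ≤ M) (g : G) :
    C ↥((A ⊔ Subgroup.zpowers g).map (QuotientGroup.mk' M)) := by
  obtain ⟨H, hH⟩ : ∃ H : Subgroup (G ⧸ M), H = (A ⊔ Subgroup.zpowers g).map (QuotientGroup.mk' M) :=
    ⟨_, rfl⟩
  obtain ⟨L, hL⟩ : ∃ L : Subgroup (G ⧸ M), L = A.map (QuotientGroup.mk' M) := ⟨_, rfl⟩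
  have hLn : L.Normal := by
    rw [hL]
    exact Subgroup.Normal.map inferInstance _ (QuotientGroup.mk'_surjective M)
  have hH' : H = L ⊔ Subgroup.zpowers (QuotientGroup.mk' M g) := by
    rw [hH, hL, Subgroup.map_sup, MonoidHom.map_zpowers]
  rw [← hH]
  have hLH : L ≤ H := by rw [hH']; exact le_sup_left
  have hgH : QuotientGroup.mk' M g ∈ H := by
    rw [hH']
    exact Subgroup.mem_sup_right (Subgroup.mem_zpowers _)
  refine fit_cyc hreal hch hC hmet (L.subgroupOf H) ⟨QuotientGroup.mk' M g, hgH⟩ ?_ ?_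
  · rw [Subgroup.eq_top_iff']
    rintro ⟨x, hx⟩
    have hx' := hx
    rw [hH'] at hx'
    obtain ⟨a, ha, b, hb, hab⟩ := mem_sup_normal.1 hx'
    obtain ⟨k, rfl⟩ := Subgroup.mem_zpowers_iff.1 hb
    have h1 : (⟨x, hx⟩ : H) = ⟨a, hLH ha⟩ * ⟨QuotientGroup.mk' M g, hgH⟩ ^ k :=
      Subtype.ext hab.symm
    rw [h1]
    exact mul_mem (Subgroup.mem_sup_left (Subgroup.mem_subgroupOf.2 ha))
      (Subgroup.mem_sup_right (Subgroup.zpow_mem_zpowers _ k))
  · rintro x hx
    have hxL : (x : G ⧸ M) ∈ L := Subgroup.mem_subgroupOf.1 hx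
    rw [hL] at hxL
    obtain ⟨y, hy, hyx⟩ := hxL
    obtain ⟨k, hk⟩ := hf y hy
    refine ⟨k, nc_subgroupOf L H hLH x k ?_⟩
    rw [← hyx, hL, ← map_conj_set, ← Subgroup.map_lowerCentralSeries, Subgroup.map_eq_bot_iff,
      QuotientGroup.ker_mk']
    exact hk

/-- **the main theorem** -/
theorem main (hreal : S_REAL) (hch : S_CH) (hjn : S_JN) (hjl : S_JL) (hC : ClosedE C)
    (hmet : HasMet C) {G : Type} [Group G] (N : Subgroup G) [hN : N.Normal] (hQ : C (G ⧸ N))
    (h : ∀ M : Subgroup G, M.Normal → M < N → ∃ A : Subgroup G, M < A ∧ A ≤ N ∧ NInv N A ∧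
      ((∃ k : ℕ, A.lowerCentralSeries k ≤ M) ∨ LFmod M A)) : C G := by
  refine hyper hC N hQ fun M hM hlt => ?_
  obtain ⟨A, hMA, hAN, hinv, h1 | h1⟩ := h M hM hlt
  · obtain ⟨A', hn, h2, h3, h4⟩ := hjn G M N A hM hN hMA.le hAN hinv h1
    exact ⟨A', hn, lt_of_lt_of_le hMA h2, h3, fun g => factor_fit hreal hch hC hmet M A' h4 g⟩
  · obtain ⟨A', hn, h2, h3, h4⟩ := hjl G M N A hM hN hMA.le hAN hinv h1
    exact ⟨A', hn, lt_of_lt_of_le hMA h2, h3, fun g => factor_lf hC M A' h4 g⟩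

end Pool.Agent.N508.HF
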