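import Pool.Agent.N508.HF.Stm

/-!
# Finitely generated nilpotent groups are polycyclic and noetherian (helper42)

`t_pc : S_PC`, `t_noe : S_NOE` and `nil_of_fit : S_FIT → S_NIL`.
-/

set_option autoImplicit false

namespace Pool.Agent.N508.HF

open scoped commutatorElement

namespace Pc

variable {G : Type} [Group G]

/-- the elements which commute with `M` modulo `K` -/
def Zs (M K : Subgroup G) (hK : NInv M K) : Subgroup G where
  carrier := {x | x ∈ M ∧ ∀ y ∈ M, ⁅x, y⁆ ∈ K}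
  one_mem' := ⟨M.one_mem, fun y _ => by rw [commutatorElement_one_left]; exact K.one_mem⟩
  mul_mem' := by
    rintro x x' ⟨h1, h2⟩ ⟨h3, h4⟩
    refine ⟨M.mul_mem h1 h3, fun y hy => ?_⟩
    have e : ⁅x * x', y⁆ = (x * ⁅x', y⁆ * x⁻¹) * ⁅x, y⁆ := by
      simp only [commutatorElement_def]; group
    rw [e]
    exact K.mul_mem (hK x h1 _ (h4 y hy)) (h2 y hy)
  inv_mem' := by
    rintro x ⟨h1, h2⟩
    refine ⟨M.inv_mem h1, fun y hy => ?_⟩
    have e : ⁅x⁻¹, y⁆ = x⁻¹ * ⁅x, y⁆⁻¹ * x⁻¹⁻¹ := by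
      simp only [commutatorElement_def]; group
    rw [e]
    exact hK _ (M.inv_mem h1) _ (K.inv_mem (h2 y hy))

/-- the elements of `M` which commute with `x` modulo `K` -/
def Ys (M K : Subgroup G) (hK : NInv M K) (x : G) : Subgroup G where
  carrier := {y | y ∈ M ∧ ⁅x, y⁆ ∈ K}
  one_mem' := ⟨M.one_mem, by rw [commutatorElement_one_right]; exact K.one_mem⟩
  mul_mem' := by
    rintro y y' ⟨h1, h2⟩ ⟨h3, h4⟩
    refine ⟨M.mul_mem h1 h3, ?_⟩
    have e : ⁅x, y * y'⁆ = ⁅x, y⁆ * (y * ⁅x, y'⁆ * y⁻¹) := by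
      simp only [commutatorElement_def]; group
    rw [e]
    exact K.mul_mem h2 (hK y h1 _ h4)
  inv_mem' := by
    rintro y ⟨h1, h2⟩
    refine ⟨M.inv_mem h1, ?_⟩
    have e : ⁅x, y⁻¹⁆ = y⁻¹ * ⁅x, y⁆⁻¹ * y⁻¹⁻¹ := by
      simp only [commutatorElement_def]; group
    rw [e]
    exact hK _ (M.inv_mem h1) _ (K.inv_mem h2)

/-- subgroups between two terms of the lower central series are normalized -/
theorem ninv_of_between {M A : Subgroup G} {i : ℕ} (h1 : M.lowerCentralSeries (i + 1) ≤ A)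
    (h2 : A ≤ M.lowerCentralSeries i) : NInv M A := by
  intro u hu a ha
  have h3 : ⁅a, u⁆ ∈ M.lowerCentralSeries (i + 1) := Subgroup.commutator_mem_commutator (h2 ha) hu
  have e : u * a * u⁻¹ = ⁅a, u⁆⁻¹ * a := by
    simp only [commutatorElement_def]; group
  rw [e]
  exact A.mul_mem (A.inv_mem (h1 h3)) ha

/-- the factors of the lower central series are finitely generated -/
theorem fg_factor {M : Subgroup G} (hM : M.FG) (i : ℕ) : ∃ T : Set G, T.Finite ∧
    T ⊆ M.lowerCentralSeries i ∧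
    M.lowerCentralSeries i ≤ Subgroup.closure T ⊔ M.lowerCentralSeries (i + 1) := by
  obtain ⟨S, hS, hSf⟩ := (Subgroup.fg_iff M).1 hM
  induction i with
  | zero =>
    refine ⟨S, hSf, ?_, ?_⟩
    · rw [Subgroup.lowerCentralSeries_zero, ← hS]
      exact Subgroup.subset_closure
    · rw [Subgroup.lowerCentralSeries_zero, hS]
      exact le_sup_left
  | succ i ih =>
    obtain ⟨T, hTf, hT, hTg⟩ := ih
    have hSM : S ⊆ M := by rw [← hS]; exact Subgroup.subset_closure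
    have hsub : (fun p : G × G => ⁅p.1, p.2⁆) '' (T ×ˢ S) ⊆
        (M.lowerCentralSeries (i + 1) : Set G) := by
      rintro _ ⟨⟨t, s⟩, ⟨ht, hs⟩, rfl⟩
      exact Subgroup.commutator_mem_commutator (hT ht) (hSM hs)
    refine ⟨(fun p : G × G => ⁅p.1, p.2⁆) '' (T ×ˢ S), (hTf.prod hSf).image _, hsub, ?_⟩
    obtain ⟨K, hK⟩ : ∃ K, K = Subgroup.closure ((fun p : G × G => ⁅p.1, p.2⁆) '' (T ×ˢ S)) ⊔
      M.lowerCentralSeries (i + 1 + 1) := ⟨_, rfl⟩
    rw [← hK]
    have hK1 : M.lowerCentralSeries (i + 1 + 1) ≤ K := by rw [hK]; exact le_sup_right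
    have hK2 : K ≤ M.lowerCentralSeries (i + 1) := by
      rw [hK]
      exact sup_le ((Subgroup.closure_le _).2 hsub)
        (M.lowerCentralSeries_antitone (Nat.le_succ _))
    have hKM : NInv M K := ninv_of_between hK1 hK2
    have h1 : T ⊆ Zs M K hKM := by
      intro t ht
      refine ⟨M.lowerCentralSeries_le_self i (hT ht), fun y hy => ?_⟩
      have h2 : Subgroup.closure S ≤ Ys M K hKM t := by
        rw [Subgroup.closure_le]
        intro s hs
        refine ⟨hSM hs, ?_⟩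
        rw [hK]
        exact Subgroup.mem_sup_left (Subgroup.subset_closure ⟨(t, s), ⟨ht, hs⟩, rfl⟩)
      rw [hS] at h2
      exact (h2 hy).2
    have h3 : M.lowerCentralSeries (i + 1) ≤ Zs M K hKM := by
      intro x hx
      exact ⟨M.lowerCentralSeries_le_self _ hx, fun y hy =>
        hK1 (Subgroup.commutator_mem_commutator hx hy)⟩
    have h4 : M.lowerCentralSeries i ≤ Zs M K hKM :=
      hTg.trans (sup_le ((Subgroup.closure_le _).2 h1) h3)
    rw [Subgroup.lowerCentralSeries_succ, Subgroup.commutator_le]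
    intro x hx y hy
    exact (h4 hx).2 y hy

/-- one step of a polycyclic series -/
def Rl (A B : Subgroup G) : Prop := A ≤ B ∧ NInv B A ∧ ∃ t ∈ B, B ≤ A ⊔ Subgroup.zpowers t

theorem rtg_step {M : Subgroup G} (i : ℕ) (T : Set G) (hf : T.Finite)
    (hT : T ⊆ M.lowerCentralSeries i) :
    Relation.ReflTransGen Rl (M.lowerCentralSeries (i + 1))
      (M.lowerCentralSeries (i + 1) ⊔ Subgroup.closure T) := by
  induction T, hf using Set.Finite.induction_on with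
  | empty => rw [Subgroup.closure_empty, sup_bot_eq]
  | @insert t T _ hf ih =>
    have hT' : T ⊆ M.lowerCentralSeries i := (Set.subset_insert t T).trans hT
    have ht : t ∈ M.lowerCentralSeries i := hT (Set.mem_insert t T)
    refine (ih hT').tail ?_
    have h1 : M.lowerCentralSeries (i + 1) ⊔ Subgroup.closure T ≤ M.lowerCentralSeries i :=
      sup_le (M.lowerCentralSeries_antitone (Nat.le_succ i)) ((Subgroup.closure_le _).2 hT')
    have h2 : M.lowerCentralSeries (i + 1) ⊔ Subgroup.closure (insert t T) ≤ M :=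
      sup_le (M.lowerCentralSeries_le_self _)
        (((Subgroup.closure_le _).2 hT).trans (M.lowerCentralSeries_le_self _))
    refine ⟨sup_le_sup_left (Subgroup.closure_mono (Set.subset_insert t T)) _, ?_, t, ?_, ?_⟩
    · intro u hu
      exact ninv_of_between le_sup_left h1 u (h2 hu)
    · exact (le_sup_right : _ ≤ M.lowerCentralSeries (i + 1) ⊔ Subgroup.closure (insert t T))
        (Subgroup.subset_closure (Set.mem_insert t T))
    · rw [Set.insert_eq, Subgroup.closure_union, ← Subgroup.zpowers_eq_closure]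
      exact sup_le (le_sup_left.trans le_sup_left)
        (sup_le le_sup_right (le_sup_right.trans le_sup_left))

theorem rtg_all {M : Subgroup G} (hM : M.FG) (c : ℕ) :
    Relation.ReflTransGen Rl (M.lowerCentralSeries c) M := by
  induction c with
  | zero => rw [Subgroup.lowerCentralSeries_zero]
  | succ c ih =>
    obtain ⟨T, hTf, hT, hTg⟩ := fg_factor hM c
    have h1 := rtg_step c T hTf hT
    have h2 : M.lowerCentralSeries (c + 1) ⊔ Subgroup.closure T = M.lowerCentralSeries c := by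
      apply le_antisymm
      · exact sup_le (M.lowerCentralSeries_antitone (Nat.le_succ c)) ((Subgroup.closure_le _).2 hT)
      · rw [sup_comm]; exact hTg
    rw [h2] at h1
    exact h1.trans ih

theorem seq_of_rtg {A B : Subgroup G} (h : Relation.ReflTransGen Rl A B) :
    ∃ (s : ℕ) (D : ℕ → Subgroup G), D 0 = A ∧ (∀ i ≥ s, D i = B) ∧ (∀ i, D i ≤ D (i + 1)) ∧
      ∀ i < s, NInv (D (i + 1)) (D i) ∧ ∃ t ∈ D (i + 1), D (i + 1) ≤ D i ⊔ Subgroup.zpowers t := by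
  induction h with
  | refl => exact ⟨0, fun _ => A, rfl, fun _ _ => rfl, fun _ => le_rfl, fun i hi => by omega⟩
  | @tail B C _ hBC ih =>
    obtain ⟨s, D, h0, hs, hm, hD⟩ := ih
    obtain ⟨h1, h2, h3⟩ := hBC
    obtain ⟨D', hD'⟩ : ∃ D' : ℕ → Subgroup G, D' = fun i => if i ≤ s then D i else C := ⟨_, rfl⟩
    have e1 : ∀ i, i ≤ s → D' i = D i := fun i hi => by rw [hD']; exact if_pos hi
    have e2 : ∀ i, ¬ i ≤ s → D' i = C := fun i hi => by rw [hD']; exact if_neg hi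
    refine ⟨s + 1, D', by rw [e1 0 (Nat.zero_le s), h0], fun i hi => e2 i (by omega),
      fun i => ?_, fun i hi => ?_⟩
    · rcases Nat.lt_or_ge i s with h | h
      · rw [e1 i h.le, e1 (i + 1) (by omega)]; exact hm i
      · rcases h.eq_or_lt with h | h
        · rw [e1 i h.ge, e2 (i + 1) (by omega), hs i h.le]; exact h1
        · rw [e2 i (by omega), e2 (i + 1) (by omega)]
    · rcases Nat.lt_or_ge i s with h | h
      · rw [e1 i h.le, e1 (i + 1) (by omega)]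
        exact hD i h
      · have h4 : i = s := by omega
        rw [h4, e1 s le_rfl, e2 (s + 1) (by omega), hs s le_rfl]
        exact ⟨h2, h3⟩

/-- the products of an element of `A` and a power of `t` -/
def Wp (A : Subgroup G) (t : G) (h : ∀ k : ℤ, ∀ a ∈ A, t ^ k * a * (t ^ k)⁻¹ ∈ A) : Subgroup G where
  carrier := {x | ∃ a ∈ A, ∃ k : ℤ, x = a * t ^ k}
  one_mem' := ⟨1, A.one_mem, 0, by simp⟩
  mul_mem' := by
    rintro _ _ ⟨a, ha, k, rfl⟩ ⟨a', ha', k', rfl⟩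
    refine ⟨a * (t ^ k * a' * (t ^ k)⁻¹), A.mul_mem ha (h k a' ha'), k + k', ?_⟩
    rw [zpow_add]; group
  inv_mem' := by
    rintro _ ⟨a, ha, k, rfl⟩
    refine ⟨t ^ (-k) * a⁻¹ * (t ^ (-k))⁻¹, h (-k) _ (A.inv_mem ha), -k, ?_⟩
    group

theorem zp_mem {A : Subgroup G} {t a₀ : G} {k₀ : ℤ} (ha₀ : a₀ ∈ A)
    (hconj : ∀ k : ℤ, ∀ a ∈ A, t ^ k * a * (t ^ k)⁻¹ ∈ A) (n : ℤ) :
    (a₀ * t ^ k₀) ^ n * t ^ (-(n * k₀)) ∈ A := by
  induction n using Int.induction_on with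
  | zero => simp
  | succ n ih =>
    have e : (a₀ * t ^ k₀) ^ ((n : ℤ) + 1) * t ^ (-(((n : ℤ) + 1) * k₀)) =
        ((a₀ * t ^ k₀) ^ (n : ℤ) * t ^ (-((n : ℤ) * k₀))) *
          (t ^ ((n : ℤ) * k₀) * a₀ * (t ^ ((n : ℤ) * k₀))⁻¹) := by
      rw [zpow_add_one, show -(((n : ℤ) + 1) * k₀) = -k₀ + -((n : ℤ) * k₀) by ring, zpow_add,
        zpow_neg t k₀, zpow_neg t ((n : ℤ) * k₀)]
      generalize (a₀ * t ^ k₀) ^ (n : ℤ) = X
      generalize t ^ ((n : ℤ) * k₀) = Y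
      generalize t ^ k₀ = Z
      group
    rw [e]
    exact A.mul_mem ih (hconj _ a₀ ha₀)
  | pred n ih =>
    have e : (a₀ * t ^ k₀) ^ (-(n : ℤ) - 1) * t ^ (-((-(n : ℤ) - 1) * k₀)) =
        ((a₀ * t ^ k₀) ^ (-(n : ℤ)) * t ^ (-((-(n : ℤ)) * k₀))) *
          (t ^ ((-(n : ℤ) - 1) * k₀) * a₀⁻¹ * (t ^ ((-(n : ℤ) - 1) * k₀))⁻¹) := by
      rw [zpow_sub_one, show -((-(n : ℤ) - 1) * k₀) = k₀ + (n : ℤ) * k₀ by ring,
        show (-(n : ℤ) - 1) * k₀ = - k₀ + -((n : ℤ) * k₀) by ring,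
        show -(-(n : ℤ) * k₀) = (n : ℤ) * k₀ by ring, zpow_add, zpow_add,
        zpow_neg t k₀, zpow_neg t ((n : ℤ) * k₀)]
      generalize (a₀ * t ^ k₀) ^ (-(n : ℤ)) = X
      have hc : t ^ k₀ * t ^ ((n : ℤ) * k₀) = t ^ ((n : ℤ) * k₀) * t ^ k₀ := by
        rw [← zpow_add, ← zpow_add, add_comm]
      generalize t ^ ((n : ℤ) * k₀) = Y at *
      generalize t ^ k₀ = Z at *
      have h1 : X * (a₀ * Z)⁻¹ * (Z * Y) = X * Z⁻¹ * a₀⁻¹ * (Z * Y) := by group
      rw [h1]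
      have h2 : X * Y * (Z⁻¹ * Y⁻¹ * a₀⁻¹ * (Z⁻¹ * Y⁻¹)⁻¹) =
          X * (Y * (Z⁻¹ * Y⁻¹)) * a₀⁻¹ * (Y * Z) := by group
      rw [h2]
      have h3 : Y * (Z⁻¹ * Y⁻¹) = Z⁻¹ := by
        rw [← mul_inv_rev, ← hc, mul_inv_rev, mul_inv_cancel_left]
      rw [h3, hc]
    rw [e]
    exact A.mul_mem ih (hconj _ _ (A.inv_mem ha₀))

theorem fg_step {A B H : Subgroup G} (hR : Rl A B) (hA : (H ⊓ A).FG) : (H ⊓ B).FG := by
  obtain ⟨hAB, hinv, t, ht, hBt⟩ := hR
  have hconj : ∀ k : ℤ, ∀ a ∈ A, t ^ k * a * (t ^ k)⁻¹ ∈ A := fun k a ha =>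
    hinv _ (B.zpow_mem ht k) a ha
  have hdec : ∀ x ∈ B, ∃ a ∈ A, ∃ k : ℤ, x = a * t ^ k := by
    have h1 : A ⊔ Subgroup.zpowers t ≤ Wp A t hconj := by
      refine sup_le (fun a ha => ⟨a, ha, 0, by simp⟩) ?_
      rw [Subgroup.zpowers_le]
      exact ⟨1, A.one_mem, 1, by simp⟩
    exact fun x hx => h1 (hBt hx)
  -- the exponents
  let E : AddSubgroup ℤ :=
    { carrier := {k | ∃ a ∈ A, a * t ^ k ∈ H}
      zero_mem' := ⟨1, A.one_mem, by simpa using H.one_mem⟩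
      add_mem' := by
        rintro k k' ⟨a, ha, h1⟩ ⟨a', ha', h2⟩
        refine ⟨a * (t ^ k * a' * (t ^ k)⁻¹), A.mul_mem ha (hconj k a' ha'), ?_⟩
        have e : a * (t ^ k * a' * (t ^ k)⁻¹) * t ^ (k + k') = (a * t ^ k) * (a' * t ^ k') := by
          rw [zpow_add]; group
        rw [e]
        exact H.mul_mem h1 h2
      neg_mem' := by
        rintro k ⟨a, ha, h1⟩
        refine ⟨t ^ (-k) * a⁻¹ * (t ^ (-k))⁻¹, hconj (-k) _ (A.inv_mem ha), ?_⟩
        have e : t ^ (-k) * a⁻¹ * (t ^ (-k))⁻¹ * t ^ (-k) = (a * t ^ k)⁻¹ := by group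
        rw [e]
        exact H.inv_mem h1 }
  obtain ⟨k₀, hk₀⟩ := Int.subgroup_cyclic E
  have hk₀E : k₀ ∈ E := by
    rw [hk₀]
    exact AddSubgroup.subset_closure (Set.mem_singleton k₀)
  obtain ⟨a₀, ha₀, hH₀⟩ := hk₀E
  obtain ⟨S, hS, hSf⟩ := (Subgroup.fg_iff _).1 hA
  rw [Subgroup.fg_iff]
  refine ⟨insert (a₀ * t ^ k₀) S, ?_, hSf.insert _⟩
  apply le_antisymm
  · rw [Subgroup.closure_le]
    intro x hx
    rcases hx with rfl | hx
    · exact ⟨hH₀, B.mul_mem (hAB ha₀) (B.zpow_mem ht _)⟩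
    · have h1 : x ∈ H ⊓ A := by rw [← hS]; exact Subgroup.subset_closure hx
      exact ⟨h1.1, hAB h1.2⟩
  · rintro x ⟨hxH, hxB⟩
    obtain ⟨a, ha, k, rfl⟩ := hdec x hxB
    have h1 : k ∈ E := ⟨a, ha, hxH⟩
    rw [hk₀, AddSubgroup.mem_closure_singleton] at h1
    obtain ⟨m, hm⟩ := h1
    have hc : Subgroup.closure S ≤ Subgroup.closure (insert (a₀ * t ^ k₀) S) :=
      Subgroup.closure_mono (Set.subset_insert _ _)
    have hh0 : a₀ * t ^ k₀ ∈ Subgroup.closure (insert (a₀ * t ^ k₀) S) :=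
      Subgroup.subset_closure (Set.mem_insert _ _)
    -- `x * h₀ ^ (-m)` is in `A`
    have h2 : ∀ n : ℤ, ∃ b ∈ A, (a₀ * t ^ k₀) ^ n = b * t ^ (n * k₀) := by
      intro n
      have h3 : (a₀ * t ^ k₀) ^ n * t ^ (-(n * k₀)) ∈ A := zp_mem ha₀ hconj n
      exact ⟨_, h3, by rw [mul_assoc, ← zpow_add]; simp⟩
    obtain ⟨b, hb, hb'⟩ := h2 m
    have h4 : a * t ^ k = (a * b⁻¹) * (a₀ * t ^ k₀) ^ m := by
      rw [hb', ← hm, smul_eq_mul]; group
    have h5 : a * b⁻¹ ∈ H ⊓ A := by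
      refine ⟨?_, A.mul_mem ha (A.inv_mem hb)⟩
      have : a * b⁻¹ = (a * t ^ k) * ((a₀ * t ^ k₀) ^ m)⁻¹ := by rw [h4]; group
      rw [this]
      exact H.mul_mem hxH (H.inv_mem (H.zpow_mem hH₀ m))
    rw [h4]
    refine Subgroup.mul_mem _ (hc ?_) (Subgroup.zpow_mem _ hh0 m)
    rw [hS]
    exact h5

theorem fg_of_rtg {A B H : Subgroup G} (h : Relation.ReflTransGen Rl A B) (hA : (H ⊓ A).FG) :
    (H ⊓ B).FG := by
  induction h with
  | refl => exact hA
  | tail _ hBC ih => exact fg_step hBC ih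

/-! ### nilpotence -/

theorem ninv_iff {N A : Subgroup G} :
    NInv N A ↔ ∀ u ∈ N, A.map (MulAut.conj u).toMonoidHom ≤ A := by
  constructor
  · intro h u hu
    rw [Subgroup.map_le_iff_le_comap]
    intro a ha
    exact h u hu a ha
  · intro h u hu a ha
    exact h u hu (Subgroup.mem_map_of_mem _ ha)

theorem ninv_sup {N A B : Subgroup G} (hA : NInv N A) (hB : NInv N B) : NInv N (A ⊔ B) := by
  rw [ninv_iff] at *
  intro u hu
  rw [Subgroup.map_sup]
  exact sup_le_sup (hA u hu) (hB u hu)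

theorem ninv_nc (N : Subgroup G) (x : G) : NInv N (nc N x) := by
  rw [ninv_iff]
  intro u hu
  unfold nc
  rw [MonoidHom.map_closure, Subgroup.closure_le]
  rintro _ ⟨_, ⟨v, hv, rfl⟩, rfl⟩
  refine Subgroup.subset_closure ⟨u * v, N.mul_mem hu hv, ?_⟩
  show u * (v * x * v⁻¹) * u⁻¹ = _
  group

theorem nc_le {N : Subgroup G} {x : G} (hx : x ∈ N) : nc N x ≤ N := by
  unfold nc
  rw [Subgroup.closure_le]
  rintro _ ⟨u, hu, rfl⟩
  exact N.mul_mem (N.mul_mem hu hx) (N.inv_mem hu)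

theorem mem_nc {N : Subgroup G} {x : G} : x ∈ nc N x :=
  Subgroup.subset_closure ⟨1, N.one_mem, by simp⟩

end Pc

open Pc

theorem t_pc : S_PC := by
  intro G _ M c hc hM
  have h := rtg_all hM c
  rw [hc] at h
  obtain ⟨s, D, h0, hs, hm, hD⟩ := seq_of_rtg h
  exact ⟨s, D, h0, hs s le_rfl, hm, hD⟩

theorem t_noe : S_NOE := by
  intro G _ M c hc hM H hH
  have h := rtg_all hM c
  rw [hc] at h
  have h1 := fg_of_rtg (H := H) h (by rw [inf_bot_eq]; exact Subgroup.FG.bot)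
  rwa [inf_eq_left.2 hH] at h1

theorem nil_of_fit (hF : S_FIT) : S_NIL := by
  intro G _ N M hN hMN hM
  obtain ⟨S, hS, hSf⟩ := (Subgroup.fg_iff M).1 hM
  have hSN : S ⊆ N := by
    intro x hx
    apply hMN
    rw [← hS]
    exact Subgroup.subset_closure hx
  have key : ∀ S : Set G, S.Finite → S ⊆ N → ∃ P : Subgroup G, S ⊆ P ∧ P ≤ N ∧ NInv N P ∧
      ∃ c : ℕ, P.lowerCentralSeries c = ⊥ := by
    intro S hSf
    induction S, hSf using Set.Finite.induction_on with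
    | empty =>
      intro _
      refine ⟨⊥, by simp, bot_le, ?_, 0, rfl⟩
      intro u _ a ha
      rw [Subgroup.mem_bot] at *
      rw [ha]; simp
    | @insert x S _ _ ih =>
      intro hx
      obtain ⟨P, h1, h2, h3, c, hc⟩ := ih ((Set.subset_insert x S).trans hx)
      have hxN : x ∈ N := hx (Set.mem_insert x S)
      obtain ⟨c', hc'⟩ := hN x hxN
      refine ⟨P ⊔ nc N x, ?_, sup_le h2 (nc_le hxN), ninv_sup h3 (ninv_nc N x), c + c', ?_⟩
      · intro y hy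
        rcases hy with rfl | hy
        · exact (le_sup_right : nc N y ≤ P ⊔ nc N y) mem_nc
        · exact (le_sup_left : P ≤ P ⊔ nc N x) (h1 hy)
      · exact hF G P (nc N x) c c' (fun u hu => h3 u (nc_le hxN hu))
          (fun u hu => ninv_nc N x u (h2 hu)) hc hc'
  obtain ⟨P, h1, -, -, c, hc⟩ := key S hSf hSN
  refine ⟨c, ?_⟩
  rw [eq_bot_iff, ← hc]
  apply Subgroup.lowerCentralSeries_mono c
  rw [← hS]
  exact (Subgroup.closure_le _).2 h1

end Pool.Agent.N508.HF
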