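import Pool.Agent.N508.HF.Stm

/-!
# HF/REAL: induction over the series

By helper765.
-/

set_option autoImplicit false

namespace Pool.Agent.N508.HF

open Pool.Agent.Y110.FJ

namespace RealAux

variable {C : ∀ (G : Type) [Group G], Prop}

/-- the generated subgroup -/
abbrev Mg {G : Type} [Group G] (g : G) (E : Set G) : Subgroup G :=
  Subgroup.closure (E ∪ (fun x => g * x * g⁻¹) '' E)

theorem map_Mg {G Q : Type} [Group G] [Group Q] (π : G →* Q) (g : G) (E : Set G) :
    (Mg g E).map π = Mg (π g) (π '' E) := by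
  unfold Mg
  rw [MonoidHom.map_closure, Set.image_union, Set.image_image, Set.image_image]
  simp only [map_mul, map_inv]

/-- realizations pull back along injective maps -/
theorem pull {G Q : Type} [Group G] [Group Q] (π : G →* Q) (g : G) (E : Set G)
    (hinj : ∀ x ∈ Mg g E, π x = 1 → x = 1) (h : Realized C (π g) (π '' E)) : Realized C g E := by
  obtain ⟨P, _, f, p, hP, hf, hfp⟩ := h
  have hmem : ∀ x : Mg g E, (π.comp (Mg g E).subtype) x ∈ Mg (π g) (π '' E) := by
    intro x
    rw [← map_Mg]
    exact ⟨x, x.2, rfl⟩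
  refine ⟨P, inferInstance, f.comp ((π.comp (Mg g E).subtype).codRestrict _ hmem), p, hP, ?_, ?_⟩
  · rw [injective_iff_map_eq_one]
    intro x hx
    have h1 : (π.comp (Mg g E).subtype).codRestrict _ hmem x = 1 := by
      apply hf
      rw [map_one]
      exact hx
    have h2 : π (x : G) = 1 := congrArg Subtype.val h1
    exact Subtype.ext (hinj x x.2 h2)
  · intro x y hx hy
    refine hfp ⟨π x, hmem x⟩ ⟨π y, hmem y⟩ ⟨x, hx, rfl⟩ ?_
    show π y = π g * π x * (π g)⁻¹
    rw [hy, map_mul, map_mul, map_inv]

end RealAux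

open RealAux in
theorem real_of_step : S_STEP → S_REAL := by
  intro hstep C hC G _ g E hE n J hJ hEn
  have key : ∀ k i : ℕ, i + k = n → ∀ _ : (J i).Normal,
      Realized C (QuotientGroup.mk' (J i) g) (QuotientGroup.mk' (J i) '' E) := by
    intro k
    induction k with
    | zero =>
      intro i hi hn
      have hi' : i = n := by omega
      subst hi'
      have h0 : ∀ x ∈ Mg (QuotientGroup.mk' (J i) g) (QuotientGroup.mk' (J i) '' E), x = 1 := by
        have h1 : Mg (QuotientGroup.mk' (J i) g) (QuotientGroup.mk' (J i) '' E) ≤ ⊥ := by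
          unfold Mg
          rw [Subgroup.closure_le]
          have h2 : ∀ x ∈ E, QuotientGroup.mk' (J i) x = 1 := fun x hx =>
            (QuotientGroup.eq_one_iff x).2 (hEn hx)
          rintro _ (⟨x, hx, rfl⟩ | ⟨_, ⟨x, hx, rfl⟩, rfl⟩)
          · exact h2 x hx
          · show QuotientGroup.mk' (J i) g * QuotientGroup.mk' (J i) x *
              (QuotientGroup.mk' (J i) g)⁻¹ = 1
            rw [h2 x hx, mul_one, mul_inv_cancel]
        exact fun x hx => h1 hx
      refine ⟨Multiplicative ℤ, inferInstance, 1, 1, hC.base.int, ?_, ?_⟩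
      · intro x y _
        exact Subtype.ext ((h0 x x.2).trans (h0 y y.2).symm)
      · intro x y _ _
        rw [MonoidHom.one_apply, MonoidHom.one_apply, one_mul, one_mul, inv_one]
    | succ k ih =>
      intro i hi hn
      have hn' := hJ.nor (i + 1)
      have h1 := ih (i + 1) (by omega) hn'
      let ρ : G ⧸ J i →* G ⧸ J (i + 1) := QuotientGroup.map (J i) (J (i + 1)) (MonoidHom.id G)
        (by rw [Subgroup.comap_id]; exact hJ.mono i)
      have hρ : ∀ x : G, ρ (QuotientGroup.mk' (J i) x) = QuotientGroup.mk' (J (i + 1)) x :=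
        fun x => rfl
      have hρs : Function.Surjective ρ := by
        intro y
        obtain ⟨x, rfl⟩ := QuotientGroup.mk'_surjective _ y
        exact ⟨_, hρ x⟩
      have h2 : Realized C (ρ (QuotientGroup.mk' (J i) g)) (ρ '' (QuotientGroup.mk' (J i) '' E)) := by
        rw [Set.image_image]
        exact h1
      rcases hJ.fac i (by omega) with ⟨_, h3⟩ | h3
      · refine hstep C hC _ _ ρ hρs ?_ _ _ (hE.image _) h2
        intro y
        obtain ⟨x, rfl⟩ := QuotientGroup.mk'_surjective _ y
        have h4 : ρ.ker ⊔ Subgroup.zpowers (QuotientGroup.mk' (J i) x) =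
            (J (i + 1) ⊔ Subgroup.zpowers x).map (QuotientGroup.mk' (J i)) := by
          rw [Subgroup.map_sup, MonoidHom.map_zpowers]
          congr 1
          ext z
          obtain ⟨z, rfl⟩ := QuotientGroup.mk'_surjective _ z
          rw [MonoidHom.mem_ker, hρ, Subgroup.mem_map]
          constructor
          · intro h5
            exact ⟨z, (QuotientGroup.eq_one_iff z).1 h5, rfl⟩
          · rintro ⟨w, hw, hwz⟩
            rw [← hρ, ← hwz, hρ]
            exact (QuotientGroup.eq_one_iff w).2 hw
        rw [h4]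
        exact h3 x
      · refine pull ρ _ _ ?_ h2
        intro x hx hx1
        rw [← map_Mg] at hx
        obtain ⟨m, hm, rfl⟩ := hx
        rw [hρ] at hx1
        exact (QuotientGroup.eq_one_iff m).2 (h3 ⟨hm, (QuotientGroup.eq_one_iff m).1 hx1⟩)
  have h0 := key n 0 (by omega) (hJ.nor 0)
  have hn0 := hJ.nor 0
  refine pull (QuotientGroup.mk' (J 0)) g E ?_ h0
  intro x _ hx
  have h1 := (QuotientGroup.eq_one_iff x).1 hx
  rw [hJ.bot] at h1
  exact h1

end Pool.Agent.N508.HF
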