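import Pool.Agent.N508.HF.Stm

/-!
# One step of the realization theorem: HNN extension and fibre product (helper499)
-/

set_option autoImplicit false

namespace Pool.Agent.N508.HF

open Pool.Agent.Y110.FJ
open Pool.Agent.Y462.SS (Closed)
open Pool.Agent.R779.FJ (KK AA BB ph ph_coe HN cj t_mul_of')

namespace Step

/-- the realization extends to the generated groups -/
theorem real_hnn {C : ∀ (G : Type) [Group G], Prop} (hC : ClosedE C) {G : Type} [Group G] (g : G)
    (E : Set G) (hR : Realized C g E) : C (HN g (Subgroup.closure E)) := by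
  obtain ⟨P, _, f, p, hCP, hf, hfp⟩ := hR
  have hle : KK g (Subgroup.closure E) ≤ Subgroup.closure (E ∪ (fun x => g * x * g⁻¹) '' E) := by
    rw [Subgroup.closure_union]
    refine sup_le_sup le_rfl ?_
    rw [MonoidHom.map_closure]
    exact Subgroup.closure_mono (le_of_eq rfl)
  have hex : ∀ a (ha : a ∈ Subgroup.closure E)
      (h1 : a ∈ Subgroup.closure (E ∪ (fun x => g * x * g⁻¹) '' E))
      (h2 : g * a * g⁻¹ ∈ Subgroup.closure (E ∪ (fun x => g * x * g⁻¹) '' E)),
      f ⟨g * a * g⁻¹, h2⟩ = p * f ⟨a, h1⟩ * p⁻¹ := by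
    have hA : ∀ a, a ∈ Subgroup.closure E →
        a ∈ Subgroup.closure (E ∪ (fun x => g * x * g⁻¹) '' E) := fun a ha =>
      Subgroup.closure_mono Set.subset_union_left ha
    have hB : ∀ a, a ∈ Subgroup.closure E →
        g * a * g⁻¹ ∈ Subgroup.closure (E ∪ (fun x => g * x * g⁻¹) '' E) := by
      intro a ha
      refine hle ?_
      exact (le_sup_right : (Subgroup.closure E).map (cj g) ≤ _) ⟨a, ha, rfl⟩
    intro a ha
    induction ha using Subgroup.closure_induction with
    | mem x hx =>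
      intro h1 h2
      exact hfp ⟨x, h1⟩ ⟨_, h2⟩ hx rfl
    | one =>
      intro h1 h2
      have e1 : (⟨g * 1 * g⁻¹, h2⟩ : ↥(Subgroup.closure (E ∪ (fun x => g * x * g⁻¹) '' E))) = 1 := by
        apply Subtype.ext
        show g * 1 * g⁻¹ = 1
        group
      have e2 : (⟨1, h1⟩ : ↥(Subgroup.closure (E ∪ (fun x => g * x * g⁻¹) '' E))) = 1 := rfl
      rw [e1, e2, map_one]
      group
    | mul x y hx hy ihx ihy =>
      intro h1 h2
      have e1 : (⟨g * (x * y) * g⁻¹, h2⟩ : ↥(Subgroup.closure (E ∪ (fun x => g * x * g⁻¹) '' E)))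
          = ⟨g * x * g⁻¹, hB x hx⟩ * ⟨g * y * g⁻¹, hB y hy⟩ := by
        apply Subtype.ext
        show g * (x * y) * g⁻¹ = g * x * g⁻¹ * (g * y * g⁻¹)
        group
      have e2 : (⟨x * y, h1⟩ : ↥(Subgroup.closure (E ∪ (fun x => g * x * g⁻¹) '' E)))
          = ⟨x, hA x hx⟩ * ⟨y, hA y hy⟩ := rfl
      rw [e1, e2, map_mul, map_mul, ihx (hA x hx) (hB x hx), ihy (hA y hy) (hB y hy)]
      group
    | inv x hx ihx =>
      intro h1 h2
      have e1 : (⟨g * x⁻¹ * g⁻¹, h2⟩ : ↥(Subgroup.closure (E ∪ (fun x => g * x * g⁻¹) '' E)))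
          = ⟨g * x * g⁻¹, hB x hx⟩⁻¹ := by
        apply Subtype.ext
        show g * x⁻¹ * g⁻¹ = (g * x * g⁻¹)⁻¹
        group
      have e2 : (⟨x⁻¹, h1⟩ : ↥(Subgroup.closure (E ∪ (fun x => g * x * g⁻¹) '' E)))
          = ⟨x, hA x hx⟩⁻¹ := rfl
      rw [e1, e2, map_inv, map_inv, ihx (hA x hx) (hB x hx)]
      group
  refine Pool.Agent.R779.FJ.t_hnn (Pool.Agent.Y961.FJ.t_perm Pool.Agent.Y529.FJ.t_ext) C hC
    (KK g (Subgroup.closure E)) P _ _ _
    (HNNExtension.lift (f.comp (Subgroup.inclusion hle)) p ?_) ?_ hCP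
  · intro a
    show p * f (Subgroup.inclusion hle (a : KK g (Subgroup.closure E))) =
      f (Subgroup.inclusion hle ((ph g _ a : BB g _) : KK g (Subgroup.closure E))) * p
    have h1 := hex (((a : KK g (Subgroup.closure E)) : G)) a.2 (hle a.1.2)
      (hle ((ph g _ a : BB g _) : KK g (Subgroup.closure E)).2)
    have h2 : f (Subgroup.inclusion hle ((ph g _ a : BB g _) : KK g (Subgroup.closure E))) =
      p * f (Subgroup.inclusion hle (a : KK g (Subgroup.closure E))) * p⁻¹ := h1
    rw [h2]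
    group
  · intro x y hxy
    have h1 : f (Subgroup.inclusion hle x) = f (Subgroup.inclusion hle y) := by
      simpa only [MonoidHom.comp_apply, HNNExtension.lift_of] using hxy
    exact Subgroup.inclusion_injective hle (hf h1)

/-- fibre products -/
theorem fibre {C : ∀ (G : Type) [Group G], Prop} (hC : ClosedE C) {G Q H : Type} [Group G] [Group Q]
    [Group H] (π : G →* Q) (ψ : H →* Q) (hK : ∀ x : G, C ↥(π.ker ⊔ Subgroup.zpowers x))
    (hH : C H) (P1 : Subgroup (G × H)) (hP1 : ∀ y : G × H, y ∈ P1 → π y.1 = ψ y.2) : C P1 := by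
  obtain ⟨s, hs⟩ : ∃ s : P1 →* H, s = (MonoidHom.snd G H).comp P1.subtype := ⟨_, rfl⟩
  have hs' : ∀ y : P1, s y = y.1.2 := fun y => by rw [hs]; rfl
  have hker : ∀ y : P1, y ∈ s.ker → y.1.1 ∈ π.ker := by
    intro y hy
    have h1 : y.1.2 = 1 := by
      rw [← hs' y]
      exact hy
    rw [MonoidHom.mem_ker, hP1 y.1 y.2, h1, map_one]
  refine Pool.Agent.Y529.FJ.t_ext C hC P1 s.ker ?_ ?_ fun q _ => ?_
  · -- the kernel
    have h1 : ∀ y : s.ker, y.1.1.1 ∈ π.ker ⊔ Subgroup.zpowers (1 : G) := fun y =>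
      Subgroup.mem_sup_left (hker y.1 y.2)
    refine hC.base.of_injective _ ↥(π.ker ⊔ Subgroup.zpowers (1 : G))
      (((MonoidHom.fst G H).comp (P1.subtype.comp s.ker.subtype)).codRestrict _ h1) ?_ (hK 1)
    intro a b hab
    have h2 : a.1.1.1 = b.1.1.1 := congrArg Subtype.val hab
    have h3 : a.1.1.2 = b.1.1.2 := by
      rw [← hs' a.1, ← hs' b.1, a.2, b.2]
    exact Subtype.ext (Subtype.ext (Prod.ext h2 h3))
  · -- the quotient
    exact hC.base.of_injective _ H (QuotientGroup.kerLift s) (QuotientGroup.kerLift_injective s) hH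
  · -- the extensions by cyclic groups
    have h1 : s.ker ⊔ Subgroup.zpowers q ≤ (π.ker ⊔ Subgroup.zpowers q.1.1).comap
        ((MonoidHom.fst G H).comp P1.subtype) := by
      refine sup_le ?_ ?_
      · intro y hy
        exact Subgroup.mem_sup_left (hker y hy)
      · rw [Subgroup.zpowers_le]
        exact Subgroup.mem_sup_right (Subgroup.mem_zpowers _)
    have h2 : s.ker ⊔ Subgroup.zpowers q ≤ (Subgroup.zpowers q.1.2).comap s := by
      refine sup_le ?_ ?_
      · intro y hy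
        rw [Subgroup.mem_comap]
        have h3 : s y = 1 := hy
        rw [h3]
        exact Subgroup.one_mem _
      · rw [Subgroup.zpowers_le, Subgroup.mem_comap, hs']
        exact Subgroup.mem_zpowers _
    refine hC.base.of_injective _ (↥(π.ker ⊔ Subgroup.zpowers q.1.1) × ↥(Subgroup.zpowers q.1.2))
      ((((((MonoidHom.fst G H).comp P1.subtype).comp (s.ker ⊔ Subgroup.zpowers q).subtype).codRestrict
        _ fun y => h1 y.2)).prod ((s.comp (s.ker ⊔ Subgroup.zpowers q).subtype).codRestrict _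
          fun y => h2 y.2)) ?_
      (hC.base.prod _ _ (hK _) (Pool.Agent.R941.FJ.C_cyc hC.base _))
    intro a b hab
    have h3 : a.1.1.1 = b.1.1.1 := congrArg (fun z => (z.1 : G)) hab
    have h4 : s a.1 = s b.1 := congrArg (fun z => (z.2 : H)) hab
    rw [hs', hs'] at h4
    exact Subtype.ext (Subtype.ext (Prod.ext h3 h4))

end Step

open Step in
theorem t_step : S_STEP := by
  intro C hC G Q _ _ π _ hK g E _ hR
  have hH := real_hnn hC (π g) (π '' E) hR
  -- the inclusion of the base group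
  have hle : ∀ m : ↥(Subgroup.closure (E ∪ (fun x => g * x * g⁻¹) '' E)),
      π m ∈ KK (π g) (Subgroup.closure (π '' E)) := by
    have h1 : Subgroup.closure (E ∪ (fun x => g * x * g⁻¹) '' E) ≤
        (KK (π g) (Subgroup.closure (π '' E))).comap π := by
      rw [Subgroup.closure_le]
      rintro x (hx | ⟨y, hy, rfl⟩)
      · exact (le_sup_left : Subgroup.closure (π '' E) ≤ _) (Subgroup.subset_closure ⟨x, hx, rfl⟩)
      · refine (le_sup_right : (Subgroup.closure (π '' E)).map (cj (π g)) ≤ _) ?_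
        refine ⟨π y, Subgroup.subset_closure ⟨y, hy, rfl⟩, ?_⟩
        show π g * π y * (π g)⁻¹ = π (g * y * g⁻¹)
        rw [map_mul, map_mul, map_inv]
    exact fun m => h1 m.2
  obtain ⟨ψ, hψ1, hψ2⟩ : ∃ ψ : HN (π g) (Subgroup.closure (π '' E)) →* Q,
      (∀ x, ψ (HNNExtension.of x) = (x : Q)) ∧ ψ HNNExtension.t = π g := by
    refine ⟨HNNExtension.lift (KK (π g) (Subgroup.closure (π '' E))).subtype (π g) ?_, ?_, ?_⟩
    · intro a
      show π g * ((a : KK (π g) (Subgroup.closure (π '' E))) : Q) =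
        (((ph (π g) _ a : BB (π g) _) : KK (π g) (Subgroup.closure (π '' E))) : Q) * π g
      rw [ph_coe]
      group
    · intro x
      rw [HNNExtension.lift_of]
      rfl
    · rw [HNNExtension.lift_t]
  obtain ⟨P1, hP1⟩ : ∃ P1 : Subgroup (G × HN (π g) (Subgroup.closure (π '' E))),
      ∀ y, y ∈ P1 ↔ π y.1 = ψ y.2 :=
    ⟨MonoidHom.eqLocus (π.comp (MonoidHom.fst _ _)) (ψ.comp (MonoidHom.snd _ _)), fun y => Iff.rfl⟩
  have hCP := fibre hC π ψ hK hH P1 fun y hy => (hP1 y).1 hy
  obtain ⟨F, hF⟩ : ∃ F : ↥(Subgroup.closure (E ∪ (fun x => g * x * g⁻¹) '' E)) →* P1,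
      ∀ m, (F m).1 = ((m : G), HNNExtension.of ⟨π m, hle m⟩) := by
    refine ⟨((Subgroup.closure (E ∪ (fun x => g * x * g⁻¹) '' E)).subtype.prod
      (HNNExtension.of.comp ((π.comp (Subgroup.closure
        (E ∪ (fun x => g * x * g⁻¹) '' E)).subtype).codRestrict _ hle))).codRestrict P1 ?_,
      fun m => rfl⟩
    intro m
    rw [hP1]
    exact (hψ1 ⟨π m, hle m⟩).symm
  have hq : ((g, HNNExtension.t) : G × HN (π g) (Subgroup.closure (π '' E))) ∈ P1 := by
    rw [hP1]
    exact hψ2.symm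
  refine ⟨P1, inferInstance, F, ⟨_, hq⟩, hCP, ?_, ?_⟩
  · intro a b hab
    have h1 := congrArg (fun z : P1 => z.1.1) hab
    simp only [hF] at h1
    exact Subtype.ext h1
  · intro x y hx hy
    apply Subtype.ext
    show (F y).1 = (g, HNNExtension.t) * (F x).1 * (g, HNNExtension.t)⁻¹
    rw [hF, hF]
    apply Prod.ext
    · show (y : G) = g * x * g⁻¹
      exact hy
    · show HNNExtension.of _ = HNNExtension.t * HNNExtension.of _ * (HNNExtension.t)⁻¹
      rw [eq_mul_inv_iff_mul_eq]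
      symm
      apply t_mul_of'
      · exact Subgroup.subset_closure ⟨_, hx, rfl⟩
      · show π y = π g * π x * (π g)⁻¹
        rw [hy, map_mul, map_mul, map_inv]

end Pool.Agent.N508.HF
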