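import Pool.Agent.N508.HF.Stm

/-!
PROJECT HF (helper508): existence of an abelian normal subgroup, by helper170.
-/

set_option autoImplicit false

namespace Pool.Agent.N508.HF

open scoped commutatorElement

namespace Zz

variable {G : Type} [Group G]

/-- the quotient of `H` by `D`, where `H = D ⟨t⟩`, is cyclic; so subgroups of `H` which meet `D`
trivially are cyclic -/
theorem cyc (H D C : Subgroup G) (hD : NInv H D) (hDH : D ≤ H) (t : G) (ht : t ∈ H)
    (hH : H ≤ D ⊔ Subgroup.zpowers t) (hC : C ≤ H) (hCD : D ⊓ C = ⊥) :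
    ∃ c : G, C = Subgroup.zpowers c := by
  have hn : (D.subgroupOf H).Normal := by
    constructor
    intro a ha b
    rw [Subgroup.mem_subgroupOf] at ha ⊢
    exact hD b b.2 a ha
  -- the quotient is cyclic
  have hcyc : IsCyclic (↥H ⧸ D.subgroupOf H) := by
    refine ⟨⟨QuotientGroup.mk ⟨t, ht⟩, fun q => ?_⟩⟩
    obtain ⟨x, rfl⟩ := QuotientGroup.mk_surjective q
    -- the preimage
    have hsup : D ⊔ Subgroup.zpowers t ≤
        ((Subgroup.zpowers (QuotientGroup.mk' (D.subgroupOf H) ⟨t, ht⟩)).comap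
          (QuotientGroup.mk' (D.subgroupOf H))).map H.subtype := by
      rw [sup_le_iff]
      constructor
      · intro d hd
        refine ⟨⟨d, hDH hd⟩, ?_, rfl⟩
        have : QuotientGroup.mk' (D.subgroupOf H) ⟨d, hDH hd⟩ = 1 := by
          rw [QuotientGroup.mk'_apply, QuotientGroup.eq_one_iff, Subgroup.mem_subgroupOf]
          exact hd
        rw [SetLike.mem_coe, Subgroup.mem_comap, this]
        exact one_mem _
      · rw [Subgroup.zpowers_le]
        refine ⟨⟨t, ht⟩, ?_, rfl⟩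
        rw [SetLike.mem_coe, Subgroup.mem_comap]
        exact Subgroup.mem_zpowers _
    obtain ⟨y, hy1, hy2⟩ := hsup (hH x.2)
    have hyx : y = x := Subtype.ext hy2
    rw [hyx, SetLike.mem_coe, Subgroup.mem_comap] at hy1
    exact hy1
  -- the embedding
  let f : ↥C →* (↥H ⧸ D.subgroupOf H) :=
    (QuotientGroup.mk' (D.subgroupOf H)).comp (Subgroup.inclusion hC)
  have hf : Function.Injective f := by
    rw [injective_iff_map_eq_one]
    intro a ha
    have h1 : QuotientGroup.mk' (D.subgroupOf H) (Subgroup.inclusion hC a) = 1 := ha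
    rw [QuotientGroup.mk'_apply, QuotientGroup.eq_one_iff, Subgroup.mem_subgroupOf] at h1
    have h2 : (a : G) ∈ D ⊓ C := ⟨h1, a.2⟩
    rw [hCD, Subgroup.mem_bot] at h2
    exact Subtype.ext h2
  have hCc : IsCyclic ↥C := isCyclic_of_injective f hf
  obtain ⟨c, hc⟩ := hCc.exists_generator
  refine ⟨c, le_antisymm ?_ ?_⟩
  · intro x hx
    obtain ⟨n, hn⟩ := hc ⟨x, hx⟩
    refine ⟨n, ?_⟩
    have := congrArg Subtype.val hn
    simpa using this
  · rw [Subgroup.zpowers_le]
    exact c.2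

theorem comm_of (Z : Subgroup G) (h : ⁅Z, Z⁆ = ⊥) : ∀ a ∈ Z, ∀ b ∈ Z, a * b = b * a := by
  intro a ha b hb
  have h1 : ⁅a, b⁆ ∈ ⁅Z, Z⁆ := Subgroup.commutator_mem_commutator ha hb
  rw [h, Subgroup.mem_bot] at h1
  exact commutatorElement_eq_one_iff_mul_comm.1 h1

end Zz

open Zz

theorem z_of_key (hkey : S_KEY) (hpc : S_PC) (hnil : S_NIL) : S_Z := by
  classical
  intro G _ N g hN hNg hfit M hM hMfg hseen hNbot
  obtain ⟨c, hc⟩ := hnil G N M hfit hM hMfg
  obtain ⟨s, D, hD0, hDs, hDm, hDc⟩ := hpc G M c hc hMfg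
  have hmono : Monotone D := monotone_nat_of_le_succ hDm
  -- the critical index
  have hex : ∃ k : ℕ, (∃ K : Subgroup G, K.Normal ∧ K ≤ N ∧ K ≠ ⊥ ∧ D k ⊓ K = ⊥) ∧
      ∀ K : Subgroup G, K.Normal → K ≤ N → K ≠ ⊥ → D (k + 1) ⊓ K ≠ ⊥ := by
    by_contra hcon
    push Not at hcon
    have hall : ∀ k : ℕ, ∃ K : Subgroup G, K.Normal ∧ K ≤ N ∧ K ≠ ⊥ ∧ D k ⊓ K = ⊥ := by
      intro k
      induction k with
      | zero => exact ⟨N, hN, le_rfl, hNbot, by rw [hD0]; simp⟩
      | succ k ih => 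
        obtain ⟨K, h1, h2, h3, h4⟩ := hcon k ih
        exact ⟨K, h1, h2, h3, h4⟩
    obtain ⟨K, h1, h2, h3, h4⟩ := hall s
    rw [hDs] at h4
    exact hseen K h1 h2 h3 h4
  obtain ⟨k, ⟨K0, hK0n, hK0N, hK0b, hK0D⟩, hk⟩ := hex
  have hks : k < s := by
    by_contra hcon
    push Not at hcon
    have h1 : M ⊓ K0 ≤ D k ⊓ K0 := by
      rw [← hDs]
      exact inf_le_inf_right _ (hmono hcon)
    rw [hK0D] at h1
    exact hseen K0 hK0n hK0N hK0b (le_bot_iff.1 h1)
  obtain ⟨hinv, t, ht, hgen⟩ := hDc k hks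
  have hkM : D (k + 1) ≤ M := by rw [← hDs]; exact hmono hks
  -- the final step
  have final : ∀ z : G, z ∈ N → z ≠ 1 → ∀ n : ℕ, 0 < n →
      (⁅Subgroup.normalClosure {z}, Subgroup.normalClosure {z}⁆ ≠ ⊥ →
        z ^ n ∈ ⁅Subgroup.normalClosure {z}, Subgroup.normalClosure {z}⁆) →
      (n = 1 ∨ ∀ k : ℕ, 0 < k → z ^ k ≠ 1) →
      ∃ Z : Subgroup G, Z.Normal ∧ Z ≤ N ∧ Z ≠ ⊥ ∧ ∀ a ∈ Z, ∀ b ∈ Z, a * b = b * a := by
    intro z hzN hz1 n hn h1 h2
    refine ⟨Subgroup.normalClosure {z}, Subgroup.normalClosure_normal,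
      Subgroup.normalClosure_le_normal (by simpa using hzN), ?_, ?_⟩
    · intro h
      have : z ∈ Subgroup.normalClosure ({z} : Set G) :=
        Subgroup.subset_normalClosure (Set.mem_singleton z)
      rw [h, Subgroup.mem_bot] at this
      exact hz1 this
    · refine comm_of _ ?_
      by_contra hne
      exact hkey G N g hN hNg hfit z hzN hz1 n hn (h1 hne) h2
  by_cases hfin : ∃ K : Subgroup G, K.Normal ∧ K ≤ K0 ∧ K ≠ ⊥ ∧ Finite ↥(D (k + 1) ⊓ K)
  · -- finite case: minimal cardinality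
    have hexn : ∃ n : ℕ, ∃ K : Subgroup G, K.Normal ∧ K ≤ K0 ∧ K ≠ ⊥ ∧
        Finite ↥(D (k + 1) ⊓ K) ∧ Nat.card ↥(D (k + 1) ⊓ K) = n := by
      obtain ⟨K, h1, h2, h3, h4⟩ := hfin
      exact ⟨_, K, h1, h2, h3, h4, rfl⟩
    obtain ⟨K1, h1, h2, h3, h4, h5⟩ := Nat.find_spec hexn
    have hmin : ∀ K : Subgroup G, K.Normal → K ≤ K1 → K ≠ ⊥ →
        D (k + 1) ⊓ K = D (k + 1) ⊓ K1 := by
      intro K hKn hK1 hKb
      have hle : D (k + 1) ⊓ K ≤ D (k + 1) ⊓ K1 := inf_le_inf_left _ hK1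
      have hKfin : Finite ↥(D (k + 1) ⊓ K) :=
        Finite.of_injective _ (Subgroup.inclusion_injective hle)
      refine Subgroup.eq_of_le_of_card_ge hle ?_
      rw [h5]
      exact Nat.find_min' hexn ⟨K, hKn, hK1.trans h2, hKb, hKfin, rfl⟩
    have hne := hk K1 h1 (h2.trans hK0N) h3
    obtain ⟨⟨z, hz⟩, hz1'⟩ := (Subgroup.ne_bot_iff_exists_ne_one).1 hne
    have hz1 : z ≠ 1 := fun h => hz1' (Subtype.ext h)
    have hzK1 : (z : G) ∈ K1 := hz.2
    refine final z (hM (hkM hz.1)) hz1 1 one_pos (fun hne2 => ?_) (Or.inl rfl)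
    rw [pow_one]
    have hZK1 : Subgroup.normalClosure {(z : G)} ≤ K1 :=
      Subgroup.normalClosure_le_normal (by simpa using hzK1)
    have h6 := hmin ⁅Subgroup.normalClosure {(z : G)}, Subgroup.normalClosure {(z : G)}⁆
      inferInstance ((Subgroup.commutator_le_left _ _).trans hZK1) hne2
    have h7 : (z : G) ∈ D (k + 1) ⊓ K1 := hz
    rw [← h6] at h7
    exact h7.2
  · push Not at hfin
    obtain ⟨z, hz⟩ := cyc (D (k + 1)) (D k) (D (k + 1) ⊓ K0) hinv (hDm k) t ht hgen inf_le_left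
      (by rw [eq_bot_iff, ← hK0D]; exact inf_le_inf_left _ inf_le_right)
    have hzm : z ∈ D (k + 1) ⊓ K0 := by rw [hz]; exact Subgroup.mem_zpowers z
    have hinf : Infinite ↥(Subgroup.zpowers z) := by
      rw [← hz]
      exact hfin K0 hK0n le_rfl hK0b
    have hord : ∀ j : ℕ, 0 < j → z ^ j ≠ 1 := by
      intro j hj h
      have h1 : IsOfFinOrder z := isOfFinOrder_iff_pow_eq_one.2 ⟨j, hj, h⟩
      have h2 : Finite ↥(Subgroup.zpowers z) := h1.finite_zpowers
      exact not_finite_iff_infinite.2 hinf h2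
    have hz1 : z ≠ 1 := by
      intro h
      exact hord 1 one_pos (by rw [h, one_pow])
    -- the exponent
    by_cases hb : ⁅Subgroup.normalClosure {z}, Subgroup.normalClosure {z}⁆ = ⊥
    · exact final z (hM (hkM hzm.1)) hz1 1 one_pos (fun h => absurd hb h) (Or.inl rfl)
    · have hZK0 : Subgroup.normalClosure {z} ≤ K0 :=
        Subgroup.normalClosure_le_normal (by simpa using hzm.2)
      have hle : ⁅Subgroup.normalClosure {z}, Subgroup.normalClosure {z}⁆ ≤ K0 :=
        (Subgroup.commutator_le_left _ _).trans hZK0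
      have h1 := hk ⁅Subgroup.normalClosure {z}, Subgroup.normalClosure {z}⁆ inferInstance
        (hle.trans hK0N) hb
      obtain ⟨x, hx1⟩ := (Subgroup.ne_bot_iff_exists_ne_one).1 h1
      have hxz : (x : G) ∈ Subgroup.zpowers z := by
        rw [← hz]
        exact ⟨x.2.1, hle x.2.2⟩
      obtain ⟨n, hn⟩ := hxz
      have hn0 : n ≠ 0 := by
        intro h
        apply hx1
        apply Subtype.ext
        rw [← hn]
        simp [h]
      have hmem : z ^ n.natAbs ∈ ⁅Subgroup.normalClosure {z}, Subgroup.normalClosure {z}⁆ := by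
        have h2 : z ^ n ∈ ⁅Subgroup.normalClosure {z}, Subgroup.normalClosure {z}⁆ := by
          have h3 : (fun m : ℤ => z ^ m) n = (x : G) := hn
          simp only at h3
          rw [h3]
          exact x.2.2
        rcases Int.natAbs_eq n with h4 | h4
        · rw [h4, zpow_natCast] at h2
          exact h2
        · rw [h4, zpow_neg, zpow_natCast] at h2
          have h5 := inv_mem h2
          rw [inv_inv] at h5
          exact h5
      exact final z (hM (hkM hzm.1)) hz1 n.natAbs (Int.natAbs_pos.2 hn0) (fun _ => hmem)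
        (Or.inr hord)

end Pool.Agent.N508.HF
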